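import Pool.Agent.L5helper37.MS.Geo

/-!
# The equations `j a + j b = c` and the modular Schanuel conjecture
-/

set_option autoImplicit false
set_option linter.unusedVariables false

namespace Pool.Agent.L5helper37.MS

open UpperHalfPlane H294ZP ModularForm Module
open Pool.Agent.N135.ZO (M2 den dd hTA)

theorem exists_tb (A : Set ℂ) : ∃ S ⊆ A, AlgebraicIndepOn ℚ id S ∧
    ∀ a ∈ A, IsAlgebraic (Algebra.adjoin ℚ S) a := by
  have h0 : AlgebraicIndepOn ℚ id (∅ : Set ℂ) := algebraicIndependent_empty_type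
  obtain ⟨S, -, hmax⟩ := exists_maximal_algebraicIndependent ∅ A (Set.empty_subset _) h0
  refine ⟨S, hmax.1.2, hmax.1.1, fun a ha => ?_⟩
  by_cases haS : a ∈ S
  · exact isAlgebraic_algebraMap (⟨a, Algebra.subset_adjoin haS⟩ : Algebra.adjoin ℚ S)
  · by_contra hT
    have h1 : AlgebraicIndepOn ℚ id (insert a S) := hmax.1.1.insert (by rw [Set.image_id]; exact hT)
    exact haS (hmax.2 ⟨h1, Set.insert_subset ha hmax.1.2⟩ (Set.subset_insert a S)
      (Set.mem_insert a S))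

theorem finrank_span_le {V : Type} [AddCommGroup V] [Module ℂ V] [FiniteDimensional ℂ V]
    {s : Set V} {n : ℕ} (h : ∀ f : Fin (n + 1) → V, (∀ i, f i ∈ s) → ¬ LinearIndependent ℂ f) :
    finrank ℂ (Submodule.span ℂ s) ≤ n := by
  by_contra hcon
  push Not at hcon
  obtain ⟨f, h1, -, h3⟩ := Submodule.exists_fun_fin_finrank_span_eq ℂ s
  exact h (fun i => f (Fin.castLE hcon i)) (fun i => h1 _) (h3.comp _ (Fin.castLE_injective hcon))

theorem exists_killed {V : Type} [AddCommGroup V] [Module ℂ V] [FiniteDimensional ℂ V]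
    (Λ : Submodule ℂ (Dual ℂ V)) (h : finrank ℂ Λ < finrank ℂ V) :
    ∃ w : V, w ≠ 0 ∧ ∀ φ ∈ Λ, φ w = 0 := by
  have h1 := Subspace.finrank_add_finrank_dualCoannihilator_eq Λ
  have h2 : 0 < finrank ℂ Λ.dualCoannihilator := by omega
  have h3 : Nontrivial Λ.dualCoannihilator := finrank_pos_iff.1 h2
  obtain ⟨w, hw⟩ := exists_ne (0 : Λ.dualCoannihilator)
  refine ⟨w, fun h4 => hw (Subtype.ext h4), fun φ hφ => ?_⟩
  exact (Submodule.mem_dualCoannihilator _).1 w.2 φ hφ

theorem dif_add (e : Eqn) (u v u' v' : ℍ → ℂ) :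
    dif e (fun p => u p + u' p) (fun p => v p + v' p) = dif e u v + dif e u' v' := by
  unfold dif Finsupp.sum
  have h1 : ∑ p ∈ e.1.support, e.1 p * (dd jj p * (v p + v' p)) =
      (∑ p ∈ e.1.support, e.1 p * (dd jj p * v p)) +
        ∑ p ∈ e.1.support, e.1 p * (dd jj p * v' p) := by
    rw [← Finset.sum_add_distrib]
    exact Finset.sum_congr rfl fun p _ => by ring
  have h2 : ∑ p ∈ e.2.support, e.2 p * (u p + u' p) =
      (∑ p ∈ e.2.support, e.2 p * u p) + ∑ p ∈ e.2.support, e.2 p * u' p := by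
    rw [← Finset.sum_add_distrib]
    exact Finset.sum_congr rfl fun p _ => by ring
  rw [h1, h2]
  ring

theorem dif_smul (e : Eqn) (c : ℂ) (u v : ℍ → ℂ) :
    dif e (fun p => c * u p) (fun p => c * v p) = c * dif e u v := by
  unfold dif Finsupp.sum
  rw [mul_add, Finset.mul_sum, Finset.mul_sum]
  congr 1
  · exact Finset.sum_congr rfl fun p _ => by ring
  · exact Finset.sum_congr rfl fun p _ => by ring

theorem ext_add (R : Finset ℍ) (w w' : R → ℂ) (p : ℍ) :
    ext R (fun r => w r + w' r) p = ext R w p + ext R w' p := by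
  unfold ext
  rw [← Finset.sum_add_distrib]
  exact Finset.sum_congr rfl fun r _ => by ring

theorem ext_smul (R : Finset ℍ) (c : ℂ) (w : R → ℂ) (p : ℍ) :
    ext R (fun r => c * w r) p = c * ext R w p := by
  unfold ext
  rw [Finset.mul_sum]
  exact Finset.sum_congr rfl fun r _ => by ring

/-- the differential on the fields given by their values at the representatives -/
noncomputable def LL (R : Finset ℍ) (e : Eqn) : Dual ℂ (R ⊕ R → ℂ) where
  toFun w := dif e (ext R fun r => w (Sum.inl r)) (ext R fun r => w (Sum.inr r))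
  map_add' w w' := by
    have h1 : (ext R fun r => (w + w') (Sum.inl r)) =
        fun p => ext R (fun r => w (Sum.inl r)) p + ext R (fun r => w' (Sum.inl r)) p :=
      funext fun p => ext_add R _ _ p
    have h2 : (ext R fun r => (w + w') (Sum.inr r)) =
        fun p => ext R (fun r => w (Sum.inr r)) p + ext R (fun r => w' (Sum.inr r)) p :=
      funext fun p => ext_add R _ _ p
    rw [h1, h2, dif_add]
  map_smul' c w := by
    have h1 : (ext R fun r => (c • w) (Sum.inl r)) =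
        fun p => c * ext R (fun r => w (Sum.inl r)) p := funext fun p => ext_smul R _ _ p
    have h2 : (ext R fun r => (c • w) (Sum.inr r)) =
        fun p => c * ext R (fun r => w (Sum.inr r)) p := funext fun p => ext_smul R _ _ p
    rw [h1, h2, dif_smul]
    rfl

theorem LL_apply (R : Finset ℍ) (e : Eqn) (w : R ⊕ R → ℂ) :
    LL R e w = dif e (ext R fun r => w (Sum.inl r)) (ext R fun r => w (Sum.inr r)) := rfl

/-- the numbers `z i` and `j (z i)` -/
def Vals {n : ℕ} (z : Fin n → ℍ) : Set ℂ :=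
  Set.range (fun i => (z i : ℂ)) ∪ Set.range fun i => jj (z i)

theorem back {d : ℕ} (h : NoExcess d Sng) (n : ℕ) (z : Fin n → ℍ) (hcm : ∀ i, ¬ IsCM (z i))
    (horb : ∀ i k, i ≠ k → ¬ Orb (z i) (z k)) :
    ∃ w : Fin (n - d) → ℂ, (∀ m, w m ∈ Vals z) ∧ AlgebraicIndependent ℚ w := by
  classical
  have hA : (Vals z).Finite := (Set.finite_range _).union (Set.finite_range _)
  obtain ⟨S, hSA, hSi, hSa⟩ := exists_tb (Vals z)
  have hS : S.Finite := hA.subset hSA
  have : Fintype S := hS.fintype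
  by_cases hn : n - d ≤ Fintype.card S
  · have h1 : Fintype.card (Fin (n - d)) ≤ Fintype.card S := by rw [Fintype.card_fin]; exact hn
    obtain ⟨f⟩ := Function.Embedding.nonempty_of_card_le h1
    exact ⟨fun m => f m, fun m => hSA (f m).2, AlgebraicIndependent.comp hSi f f.injective⟩
  push Not at hn
  exfalso
  obtain ⟨𝒞, M, hh, hM, hrel, hY, hd⟩ := exists_cor
  have hfin : Finite (Vals z) := hA
  obtain ⟨F, hF, P, hP, hE⟩ := E.forall (𝒞 := 𝒞) (A := Vals z) (ι := Vals z)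
    (φ := fun a s => (∀ t ∈ S, s.d t = 0) → s.d (a : ℂ) = 0)
    (fun a => E.alg hSA a.2 (hSa a a.2))
  -- representatives
  have h₀ : Reps (Finset.univ.image z) := by
    refine ⟨fun r hr => ?_, fun r hr s hs hrs => ?_⟩
    · obtain ⟨i, -, rfl⟩ := Finset.mem_image.1 hr
      exact hcm i
    · obtain ⟨i, -, rfl⟩ := Finset.mem_image.1 hr
      obtain ⟨k, -, rfl⟩ := Finset.mem_image.1 hs
      by_contra hne
      exact horb i k (fun hik => hne (by rw [hik])) hrs
  have hinj : Function.Injective z := by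
    intro i k hik
    by_contra hne
    exact horb i k hne (by rw [hik]; exact Orb.refl _)
  have hcard : (Finset.univ.image z).card = n := by
    rw [Finset.card_image_of_injective _ hinj, Finset.card_univ, Fintype.card_fin]
  obtain ⟨R, hR, hR0, hRG, hRp⟩ := exists_reps' h₀
    (((hA.union hF).image pt).union hP)
  have hRX : ∀ x ∈ Vals z ∪ F, pt x ∈ Pts (R : Set ℍ) := fun x hx =>
    hRp _ (Or.inl ⟨x, hx, rfl⟩)
  have hRY : P ⊆ Pts (R : Set ℍ) := fun p hp => hRp p (Or.inr hp)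
  have hzR : ∀ i, z i ∈ R := fun i => hR0 (Finset.mem_image_of_mem z (Finset.mem_univ i))
  have hzP : ∀ r ∈ R, r ∈ Pts (R : Set ℍ) := fun r hr => Or.inr ⟨r, hr, Orb.refl r⟩
  -- the equations
  obtain ⟨𝒢, h𝒢⟩ : ∃ 𝒢 : Set (Dual ℂ (R ⊕ R → ℂ)), 𝒢 = {φ | ∃ e ∈ Sng,
    (∀ p, (e.1 p ≠ 0 ∨ e.2 p ≠ 0) → p ∈ Pts (R : Set ℍ)) ∧ φ = LL R e} := ⟨_, rfl⟩
  have hrk : finrank ℂ (Submodule.span ℂ 𝒢) ≤ R.card + d := by
    refine finrank_span_le fun f hf hli => ?_
    rw [h𝒢] at hf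
    choose e he hsupp hfe using hf
    have hrange : Set.range (fun i : Fin R.card => ((R.equivFin.symm i : R) : ℍ)) = (R : Set ℍ) := by
      ext p
      constructor
      · rintro ⟨i, rfl⟩
        exact (R.equivFin.symm i).2
      · intro hp
        exact ⟨R.equivFin ⟨p, hp⟩, by simp⟩
    obtain ⟨c, hc0, hc⟩ := h R.card (fun i => ((R.equivFin.symm i : R) : ℍ)) e he (by
      rw [hrange]; exact hsupp)
    apply hc0
    funext k
    refine Fintype.linearIndependent_iff.1 hli c ?_ k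
    refine LinearMap.ext fun w => ?_
    simp only [hfe]
    rw [LinearMap.sum_apply]
    have h1 := hc _ _ (ext_eqv hR fun r => w (Sum.inl r)) (ext_eqv hR fun r => w (Sum.inr r))
    rw [LinearMap.zero_apply, ← h1]
    exact Finset.sum_congr rfl fun k _ => rfl
  -- the other functionals
  have hτ : ∀ s : S, ∃ (τ : Dual ℂ (R ⊕ R → ℂ)), ∃ i,
      ((s : ℂ) = z i ∧ τ = LinearMap.proj (Sum.inl ⟨z i, hzR i⟩)) ∨
      ((s : ℂ) = jj (z i) ∧ τ = LinearMap.proj (Sum.inr ⟨z i, hzR i⟩)) := by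
    intro s
    rcases hSA s.2 with ⟨i, hi⟩ | ⟨i, hi⟩
    · exact ⟨_, i, Or.inl ⟨hi.symm, rfl⟩⟩
    · exact ⟨_, i, Or.inr ⟨hi.symm, rfl⟩⟩
  choose τ hτ using hτ
  obtain ⟨b, hb⟩ : ∃ b : S ⊕ {r : R // (r : ℍ) ∉ Finset.univ.image z} → Dual ℂ (R ⊕ R → ℂ),
    b = Sum.elim τ fun r => if jj (r.1 : ℍ) ∈ Vals z ∪ F then LinearMap.proj (Sum.inl r.1)
      else LinearMap.proj (Sum.inr r.1) := ⟨_, rfl⟩
  have hb1 : finrank ℂ (Submodule.span ℂ (Set.range b)) ≤
      Fintype.card (S ⊕ {r : R // (r : ℍ) ∉ Finset.univ.image z}) := finrank_range_le_card b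
  have hb2 : Fintype.card {r : R // (r : ℍ) ∉ Finset.univ.image z} + n = R.card := by
    have h1 : Fintype.card {r : R // (r : ℍ) ∉ Finset.univ.image z} =
        (R \ Finset.univ.image z).card := by
      rw [← Fintype.card_coe]
      refine Fintype.card_congr ⟨fun r => ⟨r.1, Finset.mem_sdiff.2 ⟨r.1.2, r.2⟩⟩,
        fun r => ⟨⟨r.1, (Finset.mem_sdiff.1 r.2).1⟩, (Finset.mem_sdiff.1 r.2).2⟩, fun r => rfl,
        fun r => rfl⟩
    have h2 := Finset.card_sdiff_add_card_eq_card hR0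
    rw [h1]
    rw [hcard] at h2
    exact h2
  have hdim : finrank ℂ (R ⊕ R → ℂ) = R.card + R.card := by
    rw [finrank_fintype_fun_eq_card, Fintype.card_sum, Fintype.card_coe]
  have hlt : finrank ℂ (Submodule.span ℂ 𝒢 ⊔ Submodule.span ℂ (Set.range b) :
      Submodule ℂ (Dual ℂ (R ⊕ R → ℂ))) < finrank ℂ (R ⊕ R → ℂ) := by
    have h1 := Submodule.finrank_add_le_finrank_add_finrank (Submodule.span ℂ 𝒢)
      (Submodule.span ℂ (Set.range b))
    rw [Fintype.card_sum] at hb1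
    rw [hdim]
    omega
  obtain ⟨w, hw0, hw⟩ := exists_killed _ hlt
  have hwG : ∀ e ∈ Sng, (∀ p, (e.1 p ≠ 0 ∨ e.2 p ≠ 0) → p ∈ Pts (R : Set ℍ)) → LL R e w = 0 := by
    intro e he hs
    refine hw _ (Submodule.mem_sup_left (Submodule.subset_span ?_))
    rw [h𝒢]
    exact ⟨e, he, hs, rfl⟩
  have hwb : ∀ k, b k w = 0 := fun k =>
    hw _ (Submodule.mem_sup_right (Submodule.subset_span ⟨k, rfl⟩))
  obtain ⟨u, hu⟩ : ∃ u, u = ext R fun r => w (Sum.inl r) := ⟨_, rfl⟩
  obtain ⟨v, hv⟩ : ∃ v, v = ext R fun r => w (Sum.inr r) := ⟨_, rfl⟩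
  have hue : Eqv u := by rw [hu]; exact ext_eqv hR _
  have hve : Eqv v := by rw [hv]; exact ext_eqv hR _
  have hur : ∀ r : R, u r = w (Sum.inl r) := by
    intro r
    rw [hu]
    exact ext_self hR _ r
  have hvr : ∀ r : R, v r = w (Sum.inr r) := by
    intro r
    rw [hv]
    exact ext_self hR _ r
  have hgC : ∀ a ∈ Pts (R : Set ℍ), ∀ b ∈ Pts (R : Set ℍ), ∀ c ∈ Pts (R : Set ℍ),
      jj a + jj b = (c : ℂ) → dd jj a * v a + dd jj b * v b = u c := by
    intro a ha b hb c hc habc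
    have h1 := hwG (gC a b c) ⟨a, b, c, habc, rfl⟩ (supp_gC ha hb hc)
    rw [LL_apply, ← hu, ← hv, dif_gC] at h1
    exact sub_eq_zero.1 h1
  have hadm := adm_of hM hrel hY hd (R := (R : Set ℍ)) hue hve hgC
  obtain ⟨hE1, hE2⟩ := hE _ hadm (fun x hx => hRX x (Or.inl hx)) (fun x hx => hRX x (Or.inr hx))
    hRY
  have hdz : ∀ i, dl v (z i : ℂ) = u (z i) := by
    intro i
    have h1 := hgC (pt (z i : ℂ)) (hRX _ (Or.inl (Or.inl ⟨i, rfl⟩))) rho (Or.inl jj_rho.2) (z i)
      (hzP _ (hzR i)) (by rw [jj_pt, jj_rho.1, add_zero])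
    rw [hve.cm jj_rho.2, mul_zero, add_zero] at h1
    exact h1
  have hdj : ∀ i, dl v (jj (z i)) = dd jj (z i) * v (z i) := fun i => dl_eq hve rfl
  have hS0 : ∀ s ∈ S, dl v s = 0 := by
    intro s hs
    have h1 := hwb (Sum.inl ⟨s, hs⟩)
    rw [hb] at h1
    simp only [Sum.elim_inl] at h1
    obtain ⟨i, hi | hi⟩ := hτ ⟨s, hs⟩
    · rw [hi.2, LinearMap.proj_apply] at h1
      have h2 : s = z i := hi.1
      rw [h2, hdz, hur ⟨z i, hzR i⟩, h1]
    · rw [hi.2, LinearMap.proj_apply] at h1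
      have h2 : s = jj (z i) := hi.1
      rw [h2, hdj, hvr ⟨z i, hzR i⟩, h1, mul_zero]
  have hA0 : ∀ a ∈ Vals z, dl v a = 0 := fun a ha => hE1 ⟨a, ha⟩ hS0
  obtain ⟨hF0, hP0⟩ := hE2 hA0
  have hzero : ∀ r : R, jj (r : ℍ) ∈ Vals z ∪ F → w (Sum.inr r) = 0 := by
    intro r hr
    have h1 : dl v (jj (r : ℍ)) = 0 := hr.elim (hA0 _) (hF0 _)
    rw [dl_eq hve rfl, hvr] at h1
    rcases mul_eq_zero.1 h1 with h2 | h2
    · exact absurd h2 (dd_ne (hR.cm r r.2))
    · exact h2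
  apply hw0
  funext k
  rcases k with r | r
  · by_cases hr : (r : ℍ) ∈ Finset.univ.image z
    · obtain ⟨i, -, hi⟩ := Finset.mem_image.1 hr
      have h1 := hA0 (z i) (Or.inl ⟨i, rfl⟩)
      rw [hdz, hi, hur] at h1
      exact h1
    · by_cases hr' : jj (r : ℍ) ∈ Vals z ∪ F
      · have h1 := hwb (Sum.inr ⟨r, hr⟩)
        rw [hb, Sum.elim_inr, if_pos hr'] at h1
        exact h1
      · rcases hRG r r.2 with h2 | ⟨x, hx, hxr⟩ | h2
        · exact absurd h2 hr
        · rw [← hxr, jj_pt] at hr'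
          exact absurd hx hr'
        · have h3 := hP0 r h2
          rw [← hur]
          exact h3
  · by_cases hr' : jj (r : ℍ) ∈ Vals z ∪ F
    · exact hzero r hr'
    · by_cases hr : (r : ℍ) ∈ Finset.univ.image z
      · obtain ⟨i, -, hi⟩ := Finset.mem_image.1 hr
        exact absurd (Or.inl (Or.inr ⟨i, by rw [← hi]⟩)) hr'
      · have h1 := hwb (Sum.inr ⟨r, hr⟩)
        rw [hb, Sum.elim_inr, if_neg hr'] at h1
        exact h1

end Pool.Agent.L5helper37.MS
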