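import Pool.Agent.L5helper37.MS.Fwd

/-!
# The modular function as a quotient of lattice sums, and rational matrices
-/

set_option autoImplicit false
set_option linter.unusedVariables false

namespace Pool.Agent.L5helper37.MS

open UpperHalfPlane H294ZP ModularForm EisensteinSeries
open Pool.Agent.N135.ZO (M2 den dd hTA det_eq den_ne)

/-- the modular invariant -/
noncomputable def JJ (τ : ℂ) : ℂ :=
  1728 * (60 * ∑' p : ℤ × ℤ, 1 / ((p.1 : ℂ) * τ + (p.2 : ℂ)) ^ 4) ^ 3 /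
    ((60 * ∑' p : ℤ × ℤ, 1 / ((p.1 : ℂ) * τ + (p.2 : ℂ)) ^ 4) ^ 3 -
      27 * (140 * ∑' p : ℤ × ℤ, 1 / ((p.1 : ℂ) * τ + (p.2 : ℂ)) ^ 6) ^ 2)

theorem lattice_sum {k : ℕ} (hk : 3 ≤ k) (z : ℍ) :
    ∑' p : ℤ × ℤ, 1 / ((p.1 : ℂ) * z + (p.2 : ℂ)) ^ k = 2 * riemannZeta k * ModularForm.E hk z := by
  have h1 := tsum_eisSummand_eq_riemannZeta_mul_eisensteinSeries hk z
  have h2 : ModularForm.E hk z = (1 / 2 : ℂ) * eisensteinSeries (N := 1) 0 k z := rfl
  have h3 : 2 * riemannZeta k * ModularForm.E hk z = ∑' v : Fin 2 → ℤ, eisSummand k v z := by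
    rw [h1, h2]
    ring
  rw [h3, ← (finTwoArrowEquiv ℤ).tsum_eq]
  refine tsum_congr fun v => ?_
  unfold eisSummand
  rw [zpow_neg, zpow_natCast, one_div]
  rfl

theorem zeta_six : riemannZeta 6 = (Real.pi : ℂ) ^ 6 / 945 := by
  have h := riemannZeta_two_mul_nat (k := 3) (by norm_num)
  have h1 : (2 * ((3 : ℕ) : ℂ)) = 6 := by norm_num
  rw [h1, show 2 * 3 = 6 by norm_num, show bernoulli 6 = 1 / 42 by decide +kernel] at h
  rw [h]
  norm_num [Nat.factorial]
  ring

theorem JJ_eq (z : ℍ) : JJ z = jj z := by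
  have e4 := lattice_sum (k := 4) (by norm_num) z
  have e6 := lattice_sum (k := 6) (by norm_num) z
  have h4 : riemannZeta ((4 : ℕ) : ℂ) = (Real.pi : ℂ) ^ 4 / 90 := by
    push_cast
    exact riemannZeta_four
  have h6 : riemannZeta ((6 : ℕ) : ℂ) = (Real.pi : ℂ) ^ 6 / 945 := by
    push_cast
    exact zeta_six
  rw [h4] at e4
  rw [h6] at e6
  have f4 : ModularForm.E (k := 4) (by norm_num) z = (E₄ z : ℂ) := rfl
  have f6 : ModularForm.E (k := 6) (by norm_num) z = (E₆ z : ℂ) := rfl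
  rw [f4] at e4
  rw [f6] at e6
  unfold JJ jj
  rw [e4, e6]
  have hΔ := discriminant_eq_E₄_cube_sub_E₆_sq z
  have hne := discriminant_ne_zero z
  have hpi : (Real.pi : ℂ) ≠ 0 := by exact_mod_cast Real.pi_ne_zero
  have e1 : (60 * (2 * ((Real.pi : ℂ) ^ 4 / 90) * E₄ z)) ^ 3 -
      27 * (140 * (2 * ((Real.pi : ℂ) ^ 6 / 945) * E₆ z)) ^ 2 =
      (64 * (Real.pi : ℂ) ^ 12 / 27) * 1728 * discriminant z := by
    rw [hΔ]
    ring
  rw [e1, div_eq_div_iff (mul_ne_zero (mul_ne_zero (div_ne_zero (mul_ne_zero (by norm_num)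
    (pow_ne_zero _ hpi)) (by norm_num)) (by norm_num)) hne) hne]
  ring

theorem deriv_JJ (z : ℍ) : deriv JJ z = dd jj z := by
  have h1 : JJ =ᶠ[nhds (z : ℂ)] jj ∘ ofComplex := by
    filter_upwards [isOpen_upperHalfPlaneSet.mem_nhds z.im_pos] with w hw
    have hw' : 0 < w.im := hw
    rw [Function.comp_apply, ofComplex_apply_of_im_pos hw', ← JJ_eq]
  exact h1.deriv_eq

/-! ### rational matrices -/

/-- points in one orbit of the rational matrices of positive determinant -/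
def Isog (p q : ℍ) : Prop :=
  ∃ a b c d : ℚ, 0 < a * d - b * c ∧ (q : ℂ) * ((c : ℂ) * p + (d : ℂ)) = (a : ℂ) * p + (b : ℂ)

theorem exists_int (a b c d : ℚ) : ∃ (N : ℤ) (M : M2), 0 < N ∧ (M 0 0 : ℚ) = N * a ∧
    (M 0 1 : ℚ) = N * b ∧ (M 1 0 : ℚ) = N * c ∧ (M 1 1 : ℚ) = N * d := by
  have h : ∀ x : ℚ, (x.den : ℚ) * x = x.num := fun x => Rat.den_mul_eq_num x
  refine ⟨a.den * b.den * c.den * d.den, !![a.num * (b.den * c.den * d.den),
    b.num * (a.den * c.den * d.den); c.num * (a.den * b.den * d.den),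
    d.num * (a.den * b.den * c.den)], ?_, ?_, ?_, ?_, ?_⟩
  · have := a.den_pos
    have := b.den_pos
    have := c.den_pos
    have := d.den_pos
    positivity
  · simp only [Matrix.of_apply, Matrix.cons_val', Matrix.cons_val_zero, Matrix.cons_val_one,
      Matrix.cons_val_fin_one]
    push_cast
    rw [← h a]
    ring
  · simp only [Matrix.of_apply, Matrix.cons_val', Matrix.cons_val_zero, Matrix.cons_val_one,
      Matrix.cons_val_fin_one]
    push_cast
    rw [← h b]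
    ring
  · simp only [Matrix.of_apply, Matrix.cons_val', Matrix.cons_val_zero, Matrix.cons_val_one,
      Matrix.cons_val_fin_one]
    push_cast
    rw [← h c]
    ring
  · simp only [Matrix.of_apply, Matrix.cons_val', Matrix.cons_val_zero, Matrix.cons_val_one,
      Matrix.cons_val_fin_one]
    push_cast
    rw [← h d]
    ring

/-- a rational matrix is a multiple of an integral one -/
theorem exists_int_rel {a b c d : ℚ} (hdet : 0 < a * d - b * c) {p q : ℍ}
    (h : (q : ℂ) * ((c : ℂ) * p + (d : ℂ)) = (a : ℂ) * p + (b : ℂ)) :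
    ∃ M : M2, 0 < M.det ∧ N135.ZO.Rel M p q ∧
      mu M p = ((a : ℂ) * d - b * c) / ((c : ℂ) * p + d) ^ 2 := by
  obtain ⟨N, M, hN, h00, h01, h10, h11⟩ := exists_int a b c d
  have hNq : (0 : ℚ) < N := by exact_mod_cast hN
  have hd : (M.det : ℚ) = N ^ 2 * (a * d - b * c) := by
    rw [det_eq]
    push_cast
    rw [h00, h01, h10, h11]
    ring
  have hpos : 0 < M.det := by
    have : (0 : ℚ) < M.det := by rw [hd]; positivity
    exact_mod_cast this
  have c00 : ((M 0 0 : ℤ) : ℂ) = N * (a : ℂ) := by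
    have := congrArg (fun x : ℚ => (x : ℂ)) h00
    push_cast at this
    exact this
  have c01 : ((M 0 1 : ℤ) : ℂ) = N * (b : ℂ) := by
    have := congrArg (fun x : ℚ => (x : ℂ)) h01
    push_cast at this
    exact this
  have c10 : ((M 1 0 : ℤ) : ℂ) = N * (c : ℂ) := by
    have := congrArg (fun x : ℚ => (x : ℂ)) h10
    push_cast at this
    exact this
  have c11 : ((M 1 1 : ℤ) : ℂ) = N * (d : ℂ) := by
    have := congrArg (fun x : ℚ => (x : ℂ)) h11
    push_cast at this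
    exact this
  have cd : ((M.det : ℤ) : ℂ) = N ^ 2 * ((a : ℂ) * d - b * c) := by
    rw [det_eq]
    push_cast
    rw [c00, c01, c10, c11]
    ring
  have hNc : (N : ℂ) ≠ 0 := by exact_mod_cast hN.ne'
  refine ⟨M, hpos, ?_, ?_⟩
  · unfold N135.ZO.Rel N135.ZO.den N135.ZO.num
    rw [c00, c01, c10, c11]
    linear_combination (N : ℂ) * h
  · unfold mu N135.ZO.den
    rw [cd, c10, c11]
    have e : (N : ℂ) * c * p + N * d = N * ((c : ℂ) * p + d) := by ring
    rw [e, mul_pow, mul_div_mul_left _ _ (pow_ne_zero 2 hNc)]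

theorem isog_iff (p q : ℍ) : Isog p q ↔ Orb p q := by
  constructor
  · rintro ⟨a, b, c, d, hdet, h⟩
    obtain ⟨M, hM, hr, -⟩ := exists_int_rel hdet h
    exact ⟨M, hM, hr⟩
  · rintro ⟨M, hM, hr⟩
    refine ⟨M 0 0, M 0 1, M 1 0, M 1 1, ?_, ?_⟩
    · rw [det_eq] at hM
      exact_mod_cast hM
    · have h1 := hr
      unfold N135.ZO.Rel N135.ZO.den N135.ZO.num at h1
      push_cast
      exact h1

/-- the fields which transform as vector fields under rational matrices -/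
def Fld (u : ℍ → ℂ) : Prop :=
  ∀ (a b c d : ℚ) (p q : ℍ), 0 < a * d - b * c →
    (q : ℂ) * ((c : ℂ) * p + (d : ℂ)) = (a : ℂ) * p + (b : ℂ) →
    u q = ((a : ℂ) * d - b * c) / ((c : ℂ) * p + d) ^ 2 * u p

theorem fld_iff (u : ℍ → ℂ) : Fld u ↔ Eqv u := by
  constructor
  · intro hu M hM p q hr
    have h1 := hr
    unfold N135.ZO.Rel N135.ZO.den N135.ZO.num at h1
    have h2 := hu (M 0 0) (M 0 1) (M 1 0) (M 1 1) p q (by
      have h3 := hM
      rw [det_eq] at h3
      exact_mod_cast h3) (by push_cast; exact h1)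
    rw [h2]
    unfold mu N135.ZO.den
    rw [det_eq]
    push_cast
    rfl
  · intro hu a b c d p q hdet h
    obtain ⟨M, hM, hr, hmu⟩ := exists_int_rel hdet h
    rw [hu M hM p q hr, hmu]

/-- CM points -/
def Cm (p : ℂ) : Prop :=
  ∃ a b c : ℤ, (a ≠ 0 ∨ b ≠ 0 ∨ c ≠ 0) ∧ (a : ℂ) * p ^ 2 + (b : ℂ) * p + (c : ℂ) = 0

theorem cm_iff (p : ℍ) : Cm p ↔ IsCM p := by
  constructor
  · rintro ⟨a, b, c, h0, h⟩
    refine ⟨a, b, c, ?_, h⟩
    rintro rfl
    rw [Int.cast_zero, zero_mul, zero_add] at h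
    have him := congrArg Complex.im h
    simp at him
    rcases him with hb | hb
    · subst hb
      rw [Int.cast_zero, zero_mul, zero_add] at h
      have hc : c = 0 := by exact_mod_cast h
      rcases h0 with h0 | h0 | h0
      · exact h0 rfl
      · exact h0 rfl
      · exact h0 hc
    · exact absurd hb p.im_pos.ne'
  · rintro ⟨a, b, c, ha, h⟩
    exact ⟨a, b, c, Or.inl ha, h⟩

end Pool.Agent.L5helper37.MS
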