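import Mathlib

/-!
# Additive functions on sets of values closed under a correspondence

A set `X` of numbers with a function `d`, and a set `Y` of points of the upper half-plane with a function `u`, such that
`d a + d b = u c` whenever `a + b = c`; moreover `d` satisfies the chain rule for one correspondence the sum of whose
values is a quadratic polynomial. On the values of any polynomials `d` is a derivation, as soon as `X` and `Y` contain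
finitely many suitable numbers and points.
-/

set_option autoImplicit false
set_option linter.unusedVariables false

open Polynomial UpperHalfPlane

namespace Pool.Agent.L5helper37.MS

/-- the data of the correspondence: the sum of the values `Y k x` is the polynomial `Q` at `x`. -/
structure Cor where
  m : ℕ
  Y : Fin m → ℂ → ℂ
  Q : ℂ[X]
  deg : Q.natDegree = 2
  sum : ∀ x, ∑ k, Y k x = Q.eval x

/-- values and points with functions -/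
structure Sys where
  X : Set ℂ
  Y : Set ℍ
  d : ℂ → ℂ
  u : ℍ → ℂ

variable (𝒞 : Cor)

/-- admissible systems -/
structure Adm (s : Sys) : Prop where
  add : ∀ a ∈ s.X, ∀ b ∈ s.X, ∀ c ∈ s.Y, a + b = (c : ℂ) → s.d a + s.d b = s.u c
  ni_mem : ∀ (N : ℕ) (c : ℍ), (c : ℂ) = N * Complex.I → c ∈ s.Y
  ni_zero : ∀ (N : ℕ) (c : ℍ), (c : ℂ) = N * Complex.I → s.u c = 0
  zero_mem : (0 : ℂ) ∈ s.X
  map_zero : s.d 0 = 0
  c_mem : (1728 : ℂ) ∈ s.X
  c_zero : s.d 1728 = 0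
  mem : ∀ x ∈ s.X, ∀ k, 𝒞.Y k x ∈ s.X
  zero : ∀ x ∈ s.X, s.d x = 0 → ∀ k, s.d (𝒞.Y k x) = 0
  chain : ∀ x ∈ s.X, ∑ k, s.d (𝒞.Y k x) = (derivative 𝒞.Q).eval x * s.d x

/-- the statement `φ` holds as soon as `X` and `Y` contain finitely many suitable numbers and points, whose images are
determined by those of the elements of `A` -/
def E (A : Set ℂ) (φ : Sys → Prop) : Prop :=
  ∃ F : Set ℂ, F.Finite ∧ ∃ P : Set ℍ, P.Finite ∧ ∀ s : Sys, Adm 𝒞 s → A ⊆ s.X → F ⊆ s.X → P ⊆ s.Y →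
    φ s ∧ ((∀ a ∈ A, s.d a = 0) → (∀ f ∈ F, s.d f = 0) ∧ ∀ p ∈ P, s.u p = 0)

variable {𝒞}

variable {A B : Set ℂ} {φ ψ : Sys → Prop}

theorem E.of (h : ∀ s, Adm 𝒞 s → A ⊆ s.X → φ s) : E 𝒞 A φ :=
  ⟨∅, Set.finite_empty, ∅, Set.finite_empty, fun s h1 h2 _ _ =>
    ⟨h s h1 h2, fun _ => ⟨fun f hf => hf.elim, fun p hp => hp.elim⟩⟩⟩

theorem E.imp (h : E 𝒞 A φ) (h1 : ∀ s, Adm 𝒞 s → A ⊆ s.X → φ s → ψ s) : E 𝒞 A ψ := by
  obtain ⟨F, hF, P, hP, h⟩ := h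
  exact ⟨F, hF, P, hP, fun s h2 h3 h4 h5 =>
    ⟨h1 s h2 h3 (h s h2 h3 h4 h5).1, (h s h2 h3 h4 h5).2⟩⟩

theorem E.and (h : E 𝒞 A φ) (h1 : E 𝒞 A ψ) : E 𝒞 A fun s => φ s ∧ ψ s := by
  obtain ⟨F, hF, P, hP, h⟩ := h
  obtain ⟨G, hG, R, hR, h1⟩ := h1
  refine ⟨F ∪ G, hF.union hG, P ∪ R, hP.union hR, fun s h2 h3 h4 h5 => ?_⟩
  have h6 := h s h2 h3 (Set.subset_union_left.trans h4) (Set.subset_union_left.trans h5)
  have h7 := h1 s h2 h3 (Set.subset_union_right.trans h4) (Set.subset_union_right.trans h5)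
  exact ⟨⟨h6.1, h7.1⟩, fun h8 => ⟨fun f hf => hf.elim ((h6.2 h8).1 f) ((h7.2 h8).1 f),
    fun p hp => hp.elim ((h6.2 h8).2 p) ((h7.2 h8).2 p)⟩⟩

theorem E.mono (h : E 𝒞 A φ) (hAB : A ⊆ B) : E 𝒞 B φ := by
  obtain ⟨F, hF, P, hP, h⟩ := h
  refine ⟨F, hF, P, hP, fun s h2 h3 h4 h5 => ?_⟩
  have h6 := h s h2 (hAB.trans h3) h4 h5
  exact ⟨h6.1, fun h7 => h6.2 fun a ha => h7 a (hAB ha)⟩

/-- a new number -/
theorem E.intro (p : ℂ) (h : E 𝒞 (insert p A) φ)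
    (h1 : ∀ s, Adm 𝒞 s → A ⊆ s.X → p ∈ s.X → φ s → (∀ a ∈ A, s.d a = 0) → s.d p = 0) :
    E 𝒞 A fun s => p ∈ s.X ∧ φ s := by
  obtain ⟨F, hF, P, hP, h⟩ := h
  refine ⟨insert p F, hF.insert p, P, hP, fun s h2 h3 h4 h4' => ?_⟩
  have hp : p ∈ s.X := h4 (Set.mem_insert p F)
  have h5 := h s h2 (Set.insert_subset hp h3) ((Set.subset_insert p F).trans h4) h4'
  refine ⟨⟨hp, h5.1⟩, fun h7 => ?_⟩
  have hδ := h1 s h2 h3 hp h5.1 h7
  have h8 := h5.2 (by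
    rintro a (rfl | ha)
    · exact hδ
    · exact h7 a ha)
  refine ⟨fun f hf => ?_, h8.2⟩
  rcases hf with rfl | hf
  · exact hδ
  · exact h8.1 f hf

/-- new numbers and points -/
theorem E.intro' (F' : Set ℂ) (hF' : F'.Finite) (P' : Set ℍ) (hP' : P'.Finite) (h : E 𝒞 A φ)
    (h1 : ∀ s, Adm 𝒞 s → A ⊆ s.X → F' ⊆ s.X → P' ⊆ s.Y → φ s → (∀ a ∈ A, s.d a = 0) →
      (∀ f ∈ F', s.d f = 0) ∧ ∀ p ∈ P', s.u p = 0) :
    E 𝒞 A fun s => F' ⊆ s.X ∧ P' ⊆ s.Y ∧ φ s := by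
  obtain ⟨F, hF, P, hP, h⟩ := h
  refine ⟨F' ∪ F, hF'.union hF, P' ∪ P, hP'.union hP, fun s h2 h3 h4 h5 => ?_⟩
  have h6 := h s h2 h3 (Set.subset_union_right.trans h4) (Set.subset_union_right.trans h5)
  have h7 := Set.subset_union_left.trans h4
  have h8 := Set.subset_union_left.trans h5
  refine ⟨⟨h7, h8, h6.1⟩, fun h9 => ?_⟩
  have h10 := h1 s h2 h3 h7 h8 h6.1 h9
  have h11 := h6.2 h9
  exact ⟨fun f hf => hf.elim (h10.1 f) (h11.1 f), fun p hp => hp.elim (h10.2 p) (h11.2 p)⟩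

variable (𝒞) in
/-- the number `x` is reached, and its image is `f d` -/
def W (A : Set ℂ) (x : ℂ) (f : (ℂ → ℂ) → ℂ) : Prop :=
  E 𝒞 A fun s => x ∈ s.X ∧ s.d x = f s.d ∧ ((∀ a ∈ A, s.d a = 0) → s.d x = 0)

variable {x y : ℂ} {f g : (ℂ → ℂ) → ℂ}

theorem W.mono (h : W 𝒞 A x f) (hAB : A ⊆ B) : W 𝒞 B x f :=
  (E.mono h hAB).imp fun s _ _ h3 => ⟨h3.1, h3.2.1, fun h4 => h3.2.2 fun a ha => h4 a (hAB ha)⟩

theorem W.congr (h : W 𝒞 A x f) (hfg : ∀ δ, f δ = g δ) : W 𝒞 A x g :=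
  E.imp h fun s _ _ h3 => ⟨h3.1, h3.2.1.trans (hfg _), h3.2.2⟩

theorem W.mem (h : x ∈ A) : W 𝒞 A x fun δ => δ x :=
  E.of fun s _ h2 => ⟨h2 h, rfl, fun h3 => h3 x h⟩

/-- addition: the auxiliary point `N i` has complex multiplication -/
theorem W.add (h : W 𝒞 A x f) (h1 : W 𝒞 A y g) : W 𝒞 A (x + y) fun δ => f δ + g δ := by
  obtain ⟨N, hN⟩ := exists_nat_gt (max 0 (max (-y.im) (-(x.im + y.im))))
  have hN0 : (0 : ℝ) < N := lt_of_le_of_lt (le_max_left _ _) hN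
  have hN1 : -y.im < N := lt_of_le_of_lt ((le_max_left _ _).trans (le_max_right _ _)) hN
  have hN2 : -(x.im + y.im) < N :=
    lt_of_le_of_lt ((le_max_right _ _).trans (le_max_right _ _)) hN
  have hti : ((N : ℂ) * Complex.I).im = N := by simp
  obtain ⟨tp, htp⟩ : ∃ tp : ℍ, (tp : ℂ) = N * Complex.I := ⟨⟨_, by rw [hti]; exact hN0⟩, rfl⟩
  obtain ⟨sp, hsp⟩ : ∃ sp : ℍ, (sp : ℂ) = y + N * Complex.I :=
    ⟨⟨_, by rw [Complex.add_im, hti]; linarith⟩, rfl⟩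
  obtain ⟨cp, hcp⟩ : ∃ cp : ℍ, (cp : ℂ) = x + y + N * Complex.I :=
    ⟨⟨_, by rw [Complex.add_im, Complex.add_im, hti]; linarith⟩, rfl⟩
  have key : ∀ s, Adm 𝒞 s → x ∈ s.X → y ∈ s.X → (N : ℂ) * Complex.I ∈ s.X →
      y + N * Complex.I ∈ s.X → x + y ∈ s.X → sp ∈ s.Y → cp ∈ s.Y →
      s.d (N * Complex.I) = 0 ∧ s.d (y + N * Complex.I) = s.d y ∧ s.u sp = s.d y ∧
      s.u cp = s.d x + s.d y ∧ s.d (x + y) = s.d x + s.d y := by
    intro s hA hx hy ht hs hz hsY hcY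
    have e1 := hA.add _ ht 0 hA.zero_mem tp (hA.ni_mem N tp htp) (by rw [add_zero, htp])
    rw [hA.ni_zero N tp htp, hA.map_zero, add_zero] at e1
    have e2 := hA.add y hy _ ht sp hsY hsp.symm
    have e3 := hA.add _ hs 0 hA.zero_mem sp hsY (by rw [add_zero, hsp])
    have e4 := hA.add x hx _ hs cp hcY (by rw [hcp]; ring)
    have e5 := hA.add _ hz _ ht cp hcY hcp.symm
    rw [e1, add_zero] at e2 e5
    rw [hA.map_zero, add_zero] at e3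
    have e6 : s.d (y + N * Complex.I) = s.d y := e3.trans e2.symm
    rw [e6] at e4
    exact ⟨e1, e6, e2.symm, e4.symm, e5.trans e4.symm⟩
  have h2 : E 𝒞 A fun s => ({(N : ℂ) * Complex.I, y + N * Complex.I, x + y} : Set ℂ) ⊆ s.X ∧
      ({sp, cp} : Set ℍ) ⊆ s.Y ∧
      ((x ∈ s.X ∧ s.d x = f s.d ∧ ((∀ a ∈ A, s.d a = 0) → s.d x = 0)) ∧
      (y ∈ s.X ∧ s.d y = g s.d ∧ ((∀ a ∈ A, s.d a = 0) → s.d y = 0))) := by
    refine E.intro' _ (by simp) _ (by simp) (E.and h h1) ?_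
    intro s hA _ hF hP h3 h4
    obtain ⟨e1, e2, e3, e4, e5⟩ := key s hA h3.1.1 h3.2.1 (hF (by simp)) (hF (by simp))
      (hF (by simp)) (hP (by simp)) (hP (by simp))
    have hx := h3.1.2.2 h4
    have hy := h3.2.2.2 h4
    constructor
    · rintro a (rfl | rfl | rfl)
      · exact e1
      · rw [e2, hy]
      · rw [e5, hx, hy, add_zero]
    · rintro a (rfl | rfl)
      · rw [e3, hy]
      · rw [e4, hx, hy, add_zero]
  refine h2.imp fun s hA _ h3 => ?_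
  obtain ⟨hF, hP, ⟨hx, hxf, hx0⟩, ⟨hy, hyg, hy0⟩⟩ := h3
  obtain ⟨e1, e2, e3, e4, e5⟩ := key s hA hx hy (hF (by simp)) (hF (by simp))
      (hF (by simp)) (hP (by simp)) (hP (by simp))
  exact ⟨hF (by simp), by rw [e5, hxf, hyg], fun h6 => by rw [e5, hx0 h6, hy0 h6, add_zero]⟩

theorem W.zero : W 𝒞 A 0 fun _ => 0 :=
  E.of fun s hA _ => ⟨hA.zero_mem, hA.map_zero, fun _ => hA.map_zero⟩

theorem W.const : W 𝒞 A 1728 fun _ => 0 :=
  E.of fun s hA _ => ⟨hA.c_mem, hA.c_zero, fun _ => hA.c_zero⟩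

theorem W.neg (h : W 𝒞 A x f) : W 𝒞 A (-x) fun δ => -f δ := by
  have h1 : W 𝒞 (insert (-x) A) (x + -x) fun δ => f δ + δ (-x) :=
    (h.mono (Set.subset_insert _ _)).add (W.mem (Set.mem_insert _ _))
  rw [add_neg_cancel] at h1
  have key : ∀ s, Adm 𝒞 s → s.d 0 = f s.d + s.d (-x) → s.d (-x) = -f s.d := by
    intro s hA h3
    rw [hA.map_zero] at h3
    linear_combination -h3
  have h2 : E 𝒞 A fun s => -x ∈ s.X ∧
      ((0 ∈ s.X ∧ s.d 0 = f s.d + s.d (-x) ∧ ((∀ a ∈ insert (-x) A, s.d a = 0) → s.d 0 = 0)) ∧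
        (x ∈ s.X ∧ s.d x = f s.d ∧ ((∀ a ∈ A, s.d a = 0) → s.d x = 0))) := by
    refine E.intro (-x) (E.and h1 (E.mono h (Set.subset_insert _ _))) ?_
    intro s hA _ hp h3 h4
    rw [key s hA h3.1.2.1, ← h3.2.2.1, h3.2.2.2 h4, neg_zero]
  refine h2.imp fun s hA _ h3 => ?_
  have h4 := key s hA h3.2.1.2.1
  refine ⟨h3.1, h4, fun h5 => ?_⟩
  rw [h4, ← h3.2.2.2.1, h3.2.2.2.2 h5, neg_zero]

theorem W.sub (h : W 𝒞 A x f) (h1 : W 𝒞 A y g) : W 𝒞 A (x - y) fun δ => f δ - g δ := by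
  rw [sub_eq_add_neg]
  exact (h.add h1.neg).congr fun δ => (sub_eq_add_neg _ _).symm

theorem W.nsmul (h : W 𝒞 A x f) (n : ℕ) : W 𝒞 A (n * x) fun δ => n * f δ := by
  induction n with
  | zero =>
    rw [Nat.cast_zero, zero_mul]
    exact W.zero.congr fun δ => (zero_mul _).symm
  | succ n ih =>
    have e : ((n + 1 : ℕ) : ℂ) * x = n * x + x := by push_cast; ring
    rw [e]
    exact (ih.add h).congr fun δ => by push_cast; ring

/-- an auxiliary number whose nonzero multiple is known -/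
theorem W.div {c : ℂ} (hs : c ≠ 0) (h : ∀ p, W 𝒞 (insert p A) (c * p) fun δ => c * δ p)
    (h1 : W 𝒞 A (c * x) fun δ => c * f δ) : W 𝒞 A x f := by
  have h2 : E 𝒞 A fun s => x ∈ s.X ∧
      ((c * x ∈ s.X ∧ s.d (c * x) = c * s.d x ∧
        ((∀ a ∈ insert x A, s.d a = 0) → s.d (c * x) = 0)) ∧
      (c * x ∈ s.X ∧ s.d (c * x) = c * f s.d ∧ ((∀ a ∈ A, s.d a = 0) → s.d (c * x) = 0))) := by
    refine E.intro x (E.and (h x) (E.mono h1 (Set.subset_insert _ _))) ?_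
    intro s hA _ hp h3 h4
    have h5 := h3.1.2.1
    rw [h3.2.2.2 h4] at h5
    rcases mul_eq_zero.1 h5.symm with h6 | h6
    · exact absurd h6 hs
    · exact h6
  refine h2.imp fun s hA _ h3 => ?_
  obtain ⟨hx, h5, h6⟩ := h3
  have h7 : s.d x = f s.d := by
    have h8 := h5.2.1.symm.trans h6.2.1
    exact mul_left_cancel₀ hs h8
  refine ⟨hx, h7, fun h8 => ?_⟩
  have h9 := h5.2.1
  rw [h6.2.2 h8] at h9
  rcases mul_eq_zero.1 h9.symm with h10 | h10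
  · exact absurd h10 hs
  · exact h10

theorem W.nat_div {n : ℕ} (hn : n ≠ 0) (h1 : W 𝒞 A (n * x) fun δ => n * f δ) : W 𝒞 A x f :=
  W.div (c := n) (by exact_mod_cast hn)
    (fun p => (W.mem (Set.mem_insert p A)).nsmul n) h1

theorem W.int (n : ℤ) : W 𝒞 A n fun _ => 0 := by
  have hnat : ∀ n : ℕ, W 𝒞 A n fun _ => 0 := by
    intro n
    refine W.nat_div (n := 1728) (by norm_num) ?_
    have h1 := (W.const (𝒞 := 𝒞) (A := A)).nsmul n
    have e : ((1728 : ℕ) : ℂ) * n = n * 1728 := by push_cast; ring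
    rw [e]
    exact h1.congr fun δ => by simp
  obtain ⟨k, rfl | rfl⟩ := n.eq_nat_or_neg
  · exact_mod_cast hnat k
  · have h1 := (hnat k).neg
    rw [Int.cast_neg, Int.cast_natCast]
    exact h1.congr fun δ => neg_zero

theorem W.rat (r : ℚ) : W 𝒞 A r fun _ => 0 := by
  refine W.nat_div (n := r.den) r.den_nz ?_
  have e : (r.den : ℂ) * (r : ℂ) = ((r.num : ℤ) : ℂ) := by
    have h1 := Rat.den_mul_eq_num r
    exact_mod_cast congrArg (fun q : ℚ => (q : ℂ)) h1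
  rw [e]
  exact (W.int r.num).congr fun δ => (mul_zero _).symm

/-- the values of the correspondence -/
theorem W.quad (h : W 𝒞 A x f) :
    W 𝒞 A (𝒞.Q.eval x) fun δ => (derivative 𝒞.Q).eval x * f δ := by
  have h1 : ∀ k, W 𝒞 A (𝒞.Y k x) fun δ => δ (𝒞.Y k x) := fun k =>
    E.imp h fun s hA _ h3 => ⟨hA.mem x h3.1 k, rfl, fun h4 => hA.zero x h3.1 (h3.2.2 h4) k⟩
  have h2 : ∀ s : Finset (Fin 𝒞.m), W 𝒞 A (∑ k ∈ s, 𝒞.Y k x) fun δ => ∑ k ∈ s, δ (𝒞.Y k x) := by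
    intro s
    classical
    induction s using Finset.induction_on with
    | empty => simpa using (W.zero (𝒞 := 𝒞) (A := A))
    | insert a s ha ih =>
      rw [Finset.sum_insert ha]
      exact ((h1 a).add ih).congr fun δ => (Finset.sum_insert (f := fun k => δ (𝒞.Y k x)) ha).symm
  have h3 := h2 Finset.univ
  rw [𝒞.sum] at h3
  refine (E.and h h3).imp fun s hA _ h4 => ?_
  obtain ⟨⟨hx, hxf, hx0⟩, ⟨hq, hqf, hq0⟩⟩ := h4
  refine ⟨hq, ?_, hq0⟩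
  rw [hqf]
  show ∑ k, s.d (𝒞.Y k x) = _
  rw [hA.chain x hx, hxf]

/-- multiplication, up to a factor -/
theorem W.mul0 (h : W 𝒞 A x f) (h1 : W 𝒞 A y g) :
    W 𝒞 A (2 * 𝒞.Q.coeff 2 * (x * y)) fun δ => 2 * 𝒞.Q.coeff 2 * (x * g δ + y * f δ) := by
  have hQ : ∀ t, 𝒞.Q.eval t = 𝒞.Q.coeff 2 * t ^ 2 + 𝒞.Q.coeff 1 * t + 𝒞.Q.coeff 0 := by
    intro t
    rw [eval_eq_sum_range, 𝒞.deg, Finset.sum_range_succ, Finset.sum_range_succ,
      Finset.sum_range_one]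
    ring
  have hQ' : ∀ t, (derivative 𝒞.Q).eval t = 2 * 𝒞.Q.coeff 2 * t + 𝒞.Q.coeff 1 := by
    intro t
    have h0 : 𝒞.Q = C (𝒞.Q.coeff 2) * X ^ 2 + C (𝒞.Q.coeff 1) * X + C (𝒞.Q.coeff 0) :=
      eq_quadratic_of_degree_le_two (natDegree_le_iff_degree_le.1 𝒞.deg.le)
    conv_lhs => rw [h0]
    simp
    ring
  have h2 := (((h.add h1).quad.sub h.quad).sub h1.quad).add (W.zero (𝒞 := 𝒞) (A := A)).quad
  have e : 𝒞.Q.eval (x + y) - 𝒞.Q.eval x - 𝒞.Q.eval y + 𝒞.Q.eval 0 =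
      2 * 𝒞.Q.coeff 2 * (x * y) := by
    rw [hQ, hQ, hQ, hQ]
    ring
  rw [e] at h2
  refine h2.congr fun δ => ?_
  rw [hQ', hQ', hQ', hQ']
  ring

theorem W.mul (h : W 𝒞 A x f) (h1 : W 𝒞 A y g) :
    W 𝒞 A (x * y) fun δ => x * g δ + y * f δ := by
  have hs : 2 * 𝒞.Q.coeff 2 ≠ 0 := by
    refine mul_ne_zero two_ne_zero ?_
    rw [← 𝒞.deg]
    refine leadingCoeff_ne_zero.2 ?_
    intro h0
    have := 𝒞.deg
    rw [h0] at this
    simp at this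
  refine W.div hs (fun p => ?_) (h.mul0 h1)
  have h2 := (W.mem (𝒞 := 𝒞) (Set.mem_insert p A)).mul0 (W.rat (𝒞 := 𝒞) (A := insert p A) 1)
  rw [Rat.cast_one, mul_one] at h2
  exact h2.congr fun δ => by ring

/-- the values of the polynomials -/
theorem W.adjoin {S : Set ℂ} (hS : S ⊆ A) (x : ℂ) (hx : x ∈ Algebra.adjoin ℚ S) :
    ∃ f, W 𝒞 A x f ∧ ∀ δ : ℂ → ℂ, (∀ a ∈ S, δ a = 0) → f δ = 0 := by
  induction hx using Algebra.adjoin_induction with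
  | mem x hx => exact ⟨fun δ => δ x, W.mem (hS hx), fun δ h => h x hx⟩
  | algebraMap r => exact ⟨fun _ => 0, W.rat r, fun _ _ => rfl⟩
  | add x y _ _ h h1 =>
    obtain ⟨f, h2, h3⟩ := h
    obtain ⟨g, h4, h5⟩ := h1
    exact ⟨_, h2.add h4, fun δ h6 => by rw [h3 δ h6, h5 δ h6, add_zero]⟩
  | mul x y _ _ h h1 =>
    obtain ⟨f, h2, h3⟩ := h
    obtain ⟨g, h4, h5⟩ := h1
    exact ⟨_, h2.mul h4, fun δ h6 => by rw [h3 δ h6, h5 δ h6, mul_zero, mul_zero, add_zero]⟩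

theorem W.poly {S : Set ℂ} (hS : S ⊆ A) {t : ℂ} (ht : t ∈ A) (p : (Algebra.adjoin ℚ S)[X]) :
    ∃ f, W 𝒞 A (aeval t p) f ∧ ∀ δ : ℂ → ℂ, (∀ a ∈ S, δ a = 0) →
      f δ = aeval t (derivative p) * δ t := by
  induction p using Polynomial.induction_on with
  | C a =>
    obtain ⟨f, h1, h2⟩ := W.adjoin (𝒞 := 𝒞) hS (a : ℂ) a.2
    refine ⟨f, ?_, fun δ h3 => ?_⟩
    · rw [aeval_C]
      exact h1
    · rw [h2 δ h3, derivative_C, map_zero, zero_mul]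
  | add p q hp hq =>
    obtain ⟨f, h1, h2⟩ := hp
    obtain ⟨g, h3, h4⟩ := hq
    have h5 := h1.add h3
    rw [← map_add] at h5
    refine ⟨_, h5, fun δ h6 => ?_⟩
    rw [h2 δ h6, h4 δ h6, derivative_add, map_add, add_mul]
  | monomial n a ih =>
    obtain ⟨f, h1, h2⟩ := ih
    have h5 := h1.mul (W.mem (𝒞 := 𝒞) ht)
    have e : aeval t (C a * X ^ (n + 1)) = aeval t (C a * X ^ n) * t := by
      rw [pow_succ, ← mul_assoc, map_mul, aeval_X]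
    rw [← e] at h5
    refine ⟨_, h5, fun δ h6 => ?_⟩
    have e2 : (C a * X ^ (n + 1) : (Algebra.adjoin ℚ S)[X]) = (C a * X ^ n) * X := by
      rw [pow_succ, ← mul_assoc]
    have e3 : ∀ q : (Algebra.adjoin ℚ S)[X], aeval t (derivative (q * X)) =
        aeval t (derivative q) * t + aeval t q := by
      intro q
      rw [derivative_mul, map_add, map_mul, map_mul, aeval_X, derivative_X, map_one, mul_one]
    rw [h2 δ h6, e2, e3]
    ring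

/-- algebraic numbers -/
theorem E.alg {S : Set ℂ} (hS : S ⊆ A) {t : ℂ} (ht : t ∈ A)
    (halg : IsAlgebraic (Algebra.adjoin ℚ S) t) :
    E 𝒞 A fun s => (∀ a ∈ S, s.d a = 0) → s.d t = 0 := by
  classical
  have hex : ∃ n, ∃ p : (Algebra.adjoin ℚ S)[X], p ≠ 0 ∧ aeval t p = 0 ∧ p.natDegree = n := by
    obtain ⟨p, h1, h2⟩ := halg
    exact ⟨_, p, h1, h2, rfl⟩
  obtain ⟨p, hp0, hpt, hpn⟩ := Nat.find_spec hex
  have hmin := fun m (hm : m < Nat.find hex) => Nat.find_min hex hm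
  have hd : aeval t (derivative p) ≠ 0 := by
    intro h0
    by_cases hn : p.natDegree = 0
    · obtain ⟨c, rfl⟩ := natDegree_eq_zero.1 hn
      rw [aeval_C] at hpt
      have hc : c = 0 := Subtype.ext hpt
      exact hp0 (by rw [hc, C_0])
    · have hlt := natDegree_derivative_lt hn
      rw [hpn] at hlt
      refine hmin _ hlt ⟨derivative p, ?_, h0, rfl⟩
      intro h1
      exact hn (derivative_eq_zero.1 h1)
  obtain ⟨f, h1, h2⟩ := W.poly (𝒞 := 𝒞) hS ht p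
  rw [hpt] at h1
  refine E.imp h1 fun s hA _ h3 h4 => ?_
  have h5 := h3.2.1
  rw [hA.map_zero, h2 s.d h4] at h5
  rcases mul_eq_zero.1 h5.symm with h6 | h6
  · exact absurd h6 hd
  · exact h6

/-- finitely many statements -/
theorem E.forall {ι : Type} [Finite ι] {φ : ι → Sys → Prop} (h : ∀ i, E 𝒞 A (φ i)) :
    E 𝒞 A fun s => ∀ i, φ i s := by
  choose F hF P hP h using h
  refine ⟨⋃ i, F i, Set.finite_iUnion hF, ⋃ i, P i, Set.finite_iUnion hP, fun s h2 h3 h4 h4' => ?_⟩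
  have h5 : ∀ i, F i ⊆ s.X := fun i => (Set.subset_iUnion F i).trans h4
  have h5' : ∀ i, P i ⊆ s.Y := fun i => (Set.subset_iUnion P i).trans h4'
  refine ⟨fun i => (h i s h2 h3 (h5 i) (h5' i)).1, fun h6 => ⟨fun f hf => ?_, fun p hp => ?_⟩⟩
  · obtain ⟨i, hi⟩ := Set.mem_iUnion.1 hf
    exact ((h i s h2 h3 (h5 i) (h5' i)).2 h6).1 f hi
  · obtain ⟨i, hi⟩ := Set.mem_iUnion.1 hp
    exact ((h i s h2 h3 (h5 i) (h5' i)).2 h6).2 p hi

end Pool.Agent.L5helper37.MS
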