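import Pool.Agent.L5helper37.MS.Geo
import Pool.Agent.H135R2.VS.Der
import Pool.Agent.N135.ZO.Phi

/-!
# Derivations of the complex numbers and the modular function
-/

set_option autoImplicit false
set_option linter.unusedVariables false

namespace Pool.Agent.L5helper37.MS

open UpperHalfPlane H294ZP ModularForm Polynomial
open Pool.Agent.Y226 (ZZ ιZ ιZ_apply PsiE map_PsiE mP mD modular_spec)
open Pool.Agent.N135.ZO (M2 den dd hTA det_eq den_ne exists_rel den_mul hasDerivAt_dd dd_jj_ne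
  rel_one den_one rel_adj det_adj E4_cube E6_sq e2 e2_eq hd_e1)

/-- derivations vanish at the algebraic numbers -/
theorem der_alg (D : Derivation ℚ ℂ ℂ) {x : ℂ} (hx : IsIntegral ℚ x) : D x = 0 := by
  have h1 := (minpoly.irreducible hx).separable.aeval_derivative_ne_zero (minpoly.aeval ℚ x)
  have h2 := D.map_aeval (minpoly ℚ x) x
  rw [minpoly.aeval, map_zero, smul_eq_mul] at h2
  rcases mul_eq_zero.1 h2.symm with h3 | h3
  · exact absurd h3 h1
  · exact h3

theorem der_ZZ (D : Derivation ℚ ℂ ℂ) (z : ZZ) : D (ιZ z) = 0 := by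
  rw [ιZ_apply]
  exact der_alg D (IsIntegral.tower_top (R := ℤ) z.2)

theorem der_e1 (D : Derivation ℚ ℂ ℂ) (P : ZZ[X]) (x : ℂ) :
    D (P.eval₂ ιZ x) = (derivative P).eval₂ ιZ x * D x := by
  induction P using Polynomial.induction_on with
  | C a => rw [eval₂_C, der_ZZ, derivative_C, eval₂_zero, zero_mul]
  | add p q hp hq => rw [eval₂_add, map_add, hp, hq, derivative_add, eval₂_add, add_mul]
  | monomial n a ih =>
    have e1 : (C a * X ^ (n + 1) : ZZ[X]) = (C a * X ^ n) * X := by rw [pow_succ, ← mul_assoc]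
    have e3 : ∀ q : ZZ[X], (derivative (q * X)).eval₂ ιZ x =
        (derivative q).eval₂ ιZ x * x + q.eval₂ ιZ x := by
      intro q
      rw [derivative_mul, eval₂_add, eval₂_mul, eval₂_mul, eval₂_X, derivative_X, eval₂_one,
        mul_one]
    have e4 : ∀ q : ZZ[X], (q * X).eval₂ ιZ x = q.eval₂ ιZ x * x := by
      intro q
      rw [eval₂_mul, eval₂_X]
    rw [e1, e3, e4, Derivation.leibniz, ih, smul_eq_mul, smul_eq_mul]
    ring

/-- the chain rules -/
theorem chain2 (F : ZZ[X][X]) (x y : ℂ) : ∃ a : ℂ,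
    (∀ (f g : ℂ → ℂ) (f' g' z : ℂ), HasDerivAt f f' z → HasDerivAt g g' z → f z = x → g z = y →
      HasDerivAt (fun w => e2 ιZ F (f w) (g w)) (a * f' + e2 ιZ (derivative F) x y * g') z) ∧
    ∀ D : Derivation ℚ ℂ ℂ, D (e2 ιZ F x y) = a * D x + e2 ιZ (derivative F) x y * D y := by
  induction F using Polynomial.induction_on' with
  | add p q hp hq =>
    obtain ⟨a, ha, ha'⟩ := hp
    obtain ⟨b, hb, hb'⟩ := hq
    have e1 : ∀ (p q : ZZ[X][X]) (x y : ℂ), e2 ιZ (p + q) x y = e2 ιZ p x y + e2 ιZ q x y :=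
      fun p q x y => eval₂_add _ _
    refine ⟨a + b, fun f g f' g' z hf hg hx hy => ?_, fun D => ?_⟩
    · have h1 := (ha f g f' g' z hf hg hx hy).add (hb f g f' g' z hf hg hx hy)
      have e2' : (fun w => e2 ιZ (p + q) (f w) (g w)) =
          ((fun w => e2 ιZ p (f w) (g w)) + fun w => e2 ιZ q (f w) (g w)) := by
        funext w
        exact e1 p q _ _
      rw [e2']
      refine h1.congr_deriv ?_
      rw [derivative_add, e1]
      ring
    · rw [e1, map_add, ha', hb', derivative_add, e1]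
      ring
  | monomial n c =>
    have e1 : ∀ (n : ℕ) (c : ZZ[X]) (x y : ℂ), e2 ιZ (monomial n c) x y = c.eval₂ ιZ x * y ^ n :=
      fun n c x y => eval₂_monomial _ _
    have e3 : e2 ιZ (derivative (monomial n c)) x y = c.eval₂ ιZ x * (n * y ^ (n - 1)) := by
      rw [derivative_monomial, e1, eval₂_mul]
      have : ((n : ZZ[X])).eval₂ ιZ x = n := eval₂_natCast _ _ _
      rw [this]
      ring
    refine ⟨(derivative c).eval₂ ιZ x * y ^ n, fun f g f' g' z hf hg hx hy => ?_, fun D => ?_⟩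
    · have h1 := (hd_e1 c hf).mul (hg.pow n)
      have e2' : (fun w => e2 ιZ (monomial n c) (f w) (g w)) =
          ((fun w => c.eval₂ ιZ (f w)) * g ^ n) := by
        funext w
        exact e1 n c _ _
      rw [e2']
      refine h1.congr_deriv ?_
      rw [e3, hx, Pi.pow_apply, hy]
      ring
    · rw [e1, Derivation.leibniz, der_e1, Derivation.leibniz_pow, e3, smul_eq_mul, smul_eq_mul,
        nsmul_eq_mul, smul_eq_mul]
      ring

/-! ### multiplicities -/

theorem rel_smul {M : M2} {c : ℤ} {τ w : ℍ} (h : N135.ZO.Rel M τ w) :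
    N135.ZO.Rel (c • M) τ w := by
  unfold N135.ZO.Rel N135.ZO.den N135.ZO.num at *
  simp only [Matrix.smul_apply, smul_eq_mul]
  push_cast
  linear_combination (c : ℂ) * h

theorem coincide {A B : M2} {f g : ℍ → ℍ} (hA : 0 < A.det) (hB : 0 < B.det)
    (hf : ∀ τ, N135.ZO.Rel A τ (f τ)) (hg : ∀ τ, N135.ZO.Rel B τ (g τ)) {τ₀ : ℍ}
    (h0 : ¬ IsCM τ₀) (h : jj (f τ₀) = jj (g τ₀)) (τ : ℍ) : jj (f τ) = jj (g τ) := by
  obtain ⟨γ, hγ, hr⟩ := jinj _ _ h
  have hG : N135.ZO.Rel (B.adjugate * (γ * A)) τ₀ τ₀ := ((hf τ₀).mul hr).mul (rel_adj (hg τ₀))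
  have hall : N135.ZO.Rel (B.adjugate * (γ * A)) τ τ := by
    generalize B.adjugate * (γ * A) = G at hG
    unfold N135.ZO.Rel N135.ZO.den N135.ZO.num at hG
    have h10 : G 1 0 = 0 := by
      by_contra h10
      refine h0 ⟨G 1 0, G 1 1 - G 0 0, -G 0 1, h10, ?_⟩
      push_cast
      linear_combination hG
    rw [h10] at hG
    have him := congrArg Complex.im hG
    simp at him
    have hy : τ₀.im ≠ 0 := τ₀.im_pos.ne'
    have h1 : G 1 1 = G 0 0 := by
      have h2 : ((G 1 1 : ℤ) : ℝ) = ((G 0 0 : ℤ) : ℝ) := by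
        have h3 : τ₀.im * ((G 1 1 : ℤ) : ℝ) = τ₀.im * ((G 0 0 : ℤ) : ℝ) := by linarith
        exact mul_left_cancel₀ hy h3
      exact_mod_cast h2
    have h2 : G 0 1 = 0 := by
      rw [h1] at hG
      have h3 : ((G 0 1 : ℤ) : ℂ) = 0 := by
        push_cast at hG
        linear_combination -hG
      exact_mod_cast h3
    unfold N135.ZO.Rel N135.ZO.den N135.ZO.num
    rw [h10, h1, h2]
    push_cast
    ring
  obtain ⟨w, hw⟩ := exists_rel (M := γ) (by rw [hγ]; exact one_pos) (f τ)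
  have h1 : N135.ZO.Rel (B.det • (γ * A)) τ w := rel_smul ((hf τ).mul hw)
  have h2 : N135.ZO.Rel (B * (B.adjugate * (γ * A))) τ (g τ) := hall.mul (hg τ)
  rw [← mul_assoc, Matrix.mul_adjugate, smul_mul_assoc, one_mul] at h2
  have hdet : 0 < (B.det • (γ * A) : M2).det := by
    rw [Matrix.det_smul, Matrix.det_mul, hγ, one_mul]
    positivity
  rw [← hw.jj hγ, h1.unique hdet h2]

theorem mult_prod {ι : Type} [Fintype ι] [DecidableEq ℂ] (a : ι → ℂ) (t : ℂ) :
    (∏ k, (X - C (a k))).rootMultiplicity t = (Finset.univ.filter fun k => a k = t).card := by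
  have e : ∏ k, (X - C (a k)) = (Multiset.map (fun s => X - C s)
      (Multiset.map a Finset.univ.val)).prod := by
    rw [Multiset.map_map]
    rfl
  rw [← count_roots, e, roots_multiset_prod_X_sub_C, Multiset.count_map, Finset.card_def]
  congr 1
  refine Multiset.filter_congr fun k _ => ?_
  exact eq_comm

/-- a polynomial relation with a simple root -/
theorem exists_simple {M : M2} (hM : 0 < M.det) {g : ℍ → ℍ} (hg : ∀ τ, N135.ZO.Rel M τ (g τ)) :
    ∃ F : ZZ[X][X], (∀ τ, e2 ιZ F (jj τ) (jj (g τ)) = 0) ∧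
      ∀ τ, ¬ IsCM τ → e2 ιZ (derivative F) (jj τ) (jj (g τ)) ≠ 0 := by
  classical
  obtain ⟨N, hN⟩ : ∃ N : ℕ, (N : ℤ) = M.det := ⟨M.det.toNat, Int.toNat_of_nonneg hM.le⟩
  have hN0 : 0 < N := by
    have : (0 : ℤ) < N := by rw [hN]; exact hM
    exact_mod_cast this
  obtain ⟨ι, _, α, δ, β, h, h1, h2, h3, h4, h5⟩ := modular_spec N hN0
  have hH : ∀ k τ, N135.ZO.Rel !![(α k : ℤ), β k; 0, (δ k : ℤ)] τ (h k τ) := by
    intro k τ
    have := h2 k τ
    simp only [N135.ZO.Rel, N135.ZO.den, N135.ZO.num, Matrix.of_apply, Matrix.cons_val',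
      Matrix.cons_val_zero, Matrix.cons_val_one, Matrix.cons_val_fin_one]
    push_cast
    rw [← this]
    ring
  have hHd : ∀ k, 0 < (!![(α k : ℤ), β k; 0, (δ k : ℤ)] : M2).det := by
    intro k
    rw [Matrix.det_fin_two_of, mul_zero, sub_zero]
    have h6 : 0 < α k * δ k := by rw [(h1 k).2.2]; exact hN0
    exact_mod_cast h6
  obtain ⟨Q, hQ⟩ : ∃ Q : ZZ[X][X], Q = ∑ i ∈ Finset.range (mD N + 1), C (mP N i) * X ^ i :=
    ⟨_, rfl⟩
  have hQm : ∀ τ, Q.map (eval₂RingHom ιZ (jj τ)) = ∏ k, (X - C (jj (h k τ))) := by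
    intro τ
    refine Polynomial.funext fun y => ?_
    have e1 : (∏ k, (X - C (jj (h k τ)))).eval y = ∏ k, (y - jj (h k τ)) := by
      simp only [eval_prod, eval_sub, eval_X, eval_C]
    rw [e1, h4, hQ, Polynomial.map_sum, eval_finsetSum]
    unfold PsiE
    refine Finset.sum_congr rfl fun i _ => ?_
    rw [Polynomial.map_mul, Polynomial.map_pow, map_X, map_C, eval_mul, eval_pow, eval_X, eval_C]
    rfl
  obtain ⟨T, hT⟩ : ∃ T : Finset ι, T = Finset.univ.filter fun k => ∀ τ, jj (h k τ) = jj (g τ) :=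
    ⟨_, rfl⟩
  have hle : ∀ τ, T.card ≤ (∏ k, (X - C (jj (h k τ)))).rootMultiplicity (jj (g τ)) := by
    intro τ
    rw [mult_prod, hT]
    refine Finset.card_le_card fun k hk => ?_
    rw [Finset.mem_filter] at hk ⊢
    exact ⟨hk.1, hk.2 τ⟩
  have heq : ∀ τ, ¬ IsCM τ →
      (∏ k, (X - C (jj (h k τ)))).rootMultiplicity (jj (g τ)) = T.card := by
    intro τ hτ
    rw [mult_prod, hT]
    congr 1
    ext k
    rw [Finset.mem_filter, Finset.mem_filter]
    refine and_congr_right fun _ => ⟨fun h6 => ?_, fun h6 => h6 τ⟩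
    exact coincide (hHd k) hM (hH k) hg hτ h6
  by_cases hT0 : T.card = 0
  · -- there are no points without complex multiplication: the set `T` would be nonempty
    refine ⟨0, fun τ => by unfold e2; simp, fun τ hτ => ?_⟩
    exfalso
    have h6 := h5 τ (g τ) (M 0 0) (M 0 1) (M 1 0) (M 1 1) (by rw [← det_eq, hN]) (hg τ)
    rw [← h4] at h6
    obtain ⟨k, -, hk⟩ := Finset.prod_eq_zero_iff.1 h6
    have h7 : k ∈ T := by
      rw [hT, Finset.mem_filter]
      exact ⟨Finset.mem_univ k, coincide (hHd k) hM (hH k) hg hτ (sub_eq_zero.1 hk).symm⟩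
    rw [Finset.card_eq_zero.1 hT0] at h7
    exact absurd h7 (Finset.notMem_empty k)
  obtain ⟨r, hr⟩ : ∃ r, T.card = r + 1 := Nat.exists_eq_succ_of_ne_zero hT0
  have hne : ∀ τ, (∏ k, (X - C (jj (h k τ)))) ≠ 0 := fun τ =>
    (monic_prod_of_monic _ _ fun k _ => monic_X_sub_C _).ne_zero
  have hnz : ∀ m : ℕ, (m.factorial : ℂ) ∈ nonZeroDivisors ℂ := fun m =>
    mem_nonZeroDivisors_of_ne_zero (by exact_mod_cast m.factorial_ne_zero)
  have hev : ∀ (m : ℕ) (τ : ℍ), e2 ιZ (derivative^[m] Q) (jj τ) (jj (g τ)) =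
      (derivative^[m] (∏ k, (X - C (jj (h k τ))))).eval (jj (g τ)) := by
    intro m τ
    rw [← hQm, iterate_derivative_map, eval_map]
    rfl
  refine ⟨derivative^[r] Q, fun τ => ?_, fun τ hτ => ?_⟩
  · rw [hev]
    have h6 : r < (∏ k, (X - C (jj (h k τ)))).rootMultiplicity (jj (g τ)) :=
      lt_of_lt_of_le (by omega) (hle τ)
    exact (lt_rootMultiplicity_iff_isRoot_iterate_derivative_of_mem_nonZeroDivisors (hne τ)
      (hnz r)).1 h6 r le_rfl
  · rw [← Function.iterate_succ_apply' derivative r Q, hev]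
    intro h7
    have h8 : r < (∏ k, (X - C (jj (h k τ)))).rootMultiplicity (jj (g τ)) :=
      lt_of_lt_of_le (by omega) (hle τ)
    have h9 := (lt_rootMultiplicity_iff_isRoot_iterate_derivative_of_mem_nonZeroDivisors (hne τ)
      (hnz r)).1 h8
    have h10 : r + 1 < (∏ k, (X - C (jj (h k τ)))).rootMultiplicity (jj (g τ)) := by
      refine (lt_rootMultiplicity_iff_isRoot_iterate_derivative_of_mem_nonZeroDivisors (hne τ)
        (hnz (r + 1))).2 fun m hm => ?_
      rcases Nat.lt_or_eq_of_le hm with hm | rfl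
      · exact h9 m (by omega)
      · exact h7
    rw [heq τ hτ] at h10
    omega

/-- derivations and the derivative of the modular function -/
theorem der_rel (D : Derivation ℚ ℂ ℂ) {M : M2} (hM : 0 < M.det) {p q : ℍ}
    (h : N135.ZO.Rel M p q) (hp : ¬ IsCM p) : D (jj q) * dd jj p = dd jj q * mu M p * D (jj p) := by
  choose g hg using fun τ => exists_rel hM τ
  have hq : q = g p := h.unique hM (hg p)
  obtain ⟨F, hF, hF'⟩ := exists_simple hM hg
  obtain ⟨a, ha, ha'⟩ := chain2 F (jj p) (jj (g p))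
  have h1 := ha (jj ∘ ofComplex) ((fun w => jj (g w)) ∘ ofComplex) _ _ _
    (hasDerivAt_dd hTA.2.1 p) (hasDerivAt_rel hTA.2.1 hM hg p) (by simp) (by simp)
  have h2 : (fun w => e2 ιZ F ((jj ∘ ofComplex) w) (((fun w => jj (g w)) ∘ ofComplex) w)) =
      fun _ => 0 := funext fun w => hF _
  rw [h2] at h1
  have h3 := h1.unique (hasDerivAt_const (p : ℂ) (0 : ℂ))
  have h4 := ha' D
  rw [hF, map_zero] at h4
  have h5 := hF' p hp
  rw [hq]
  refine mul_left_cancel₀ h5 ?_
  linear_combination (-(D (jj p))) * h3 - dd jj p * h4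

/-- derivations and the action of the matrices -/
theorem der_pt (D : Derivation ℚ ℂ ℂ) {M : M2} (hM : 0 < M.det) {p q : ℍ}
    (h : N135.ZO.Rel M p q) : D (q : ℂ) = mu M p * D (p : ℂ) := by
  have hne := den_ne hM p
  have hint : ∀ n : ℤ, D (n : ℂ) = 0 := fun n => D.map_intCast n
  have h1 := congrArg D h
  have h0 := h
  unfold N135.ZO.Rel N135.ZO.den N135.ZO.num at h0
  unfold N135.ZO.den N135.ZO.num at h1
  unfold N135.ZO.den at hne
  rw [Derivation.leibniz, map_add, map_add, Derivation.leibniz, Derivation.leibniz, hint, hint,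
    hint, hint] at h1
  simp only [smul_eq_mul, mul_zero, add_zero] at h1
  unfold mu N135.ZO.den
  rw [div_mul_eq_mul_div, eq_div_iff (pow_ne_zero 2 hne), det_eq]
  push_cast
  linear_combination ((M 1 0 : ℂ) * p + M 1 1) * h1 - (M 1 0 : ℂ) * D (p : ℂ) * h0

end Pool.Agent.L5helper37.MS
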