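import Pool.Agent.L5helper37.MS.Back
import Pool.Agent.L5helper37.MS.Der

/-!
# The modular Schanuel conjecture implies its linear form
-/

set_option autoImplicit false
set_option linter.unusedVariables false

namespace Pool.Agent.L5helper37.MS

open UpperHalfPlane H294ZP ModularForm Module
open Pool.Agent.N135.ZO (M2 den dd hTA)

/-- the modular Schanuel conjecture with the defect `d` -/
def MSC (d : ℕ) : Prop :=
  ∀ (n : ℕ) (z : Fin n → ℍ), (∀ i, ¬ IsCM (z i)) → (∀ i k, i ≠ k → ¬ Orb (z i) (z k)) →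
    ∃ w : Fin (n - d) → ℂ, (∀ m, w m ∈ Vals z) ∧ AlgebraicIndependent ℚ w

theorem der_cm (D : Derivation ℚ ℂ ℂ) {p : ℍ} (hp : IsCM p) : D (jj p) = 0 :=
  der_alg D (IsIntegral.tower_top (R := ℤ) (singular_modulus_integral p hp))

/-- the field of a derivation -/
noncomputable def uD (D : Derivation ℚ ℂ ℂ) (p : ℍ) : ℂ := D (p : ℂ)

/-- the field of a derivation on the values of the modular function -/
noncomputable def vD (D : Derivation ℚ ℂ ℂ) (p : ℍ) : ℂ := D (jj p) / dd jj p

theorem uD_eqv (D : Derivation ℚ ℂ ℂ) : Eqv (uD D) := fun M hM p q h => der_pt D hM h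

theorem vD_eqv (D : Derivation ℚ ℂ ℂ) : Eqv (vD D) := by
  intro M hM p q h
  unfold vD
  by_cases hp : IsCM p
  · have hq : IsCM q := Orb.cm ⟨M, hM, h⟩ hp
    rw [der_cm D hp, der_cm D hq]
    simp
  · have hq : ¬ IsCM q := fun hq => hp (Orb.cm (Orb.symm ⟨M, hM, h⟩) hq)
    have h1 := dd_ne hp
    have h2 := dd_ne hq
    have h3 := der_rel D hM h hp
    rw [← mul_div_assoc, div_eq_div_iff h2 h1]
    linear_combination h3

theorem vD_mul (D : Derivation ℚ ℂ ℂ) (p : ℍ) : dd jj p * vD D p = D (jj p) := by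
  unfold vD
  by_cases hp : IsCM p
  · rw [der_cm D hp]
    simp
  · exact mul_div_cancel₀ _ (dd_ne hp)

theorem dif_der (D : Derivation ℚ ℂ ℂ) (e : Eqn)
    (he : ∀ p, IsAlgebraic ℚ (e.1 p) ∧ IsAlgebraic ℚ (e.2 p)) :
    dif e (uD D) (vD D) = D (val e) := by
  have h1 : ∀ c x : ℂ, IsAlgebraic ℚ c → D (c * x) = c * D x := by
    intro c x hc
    rw [Derivation.leibniz, der_alg D hc.isIntegral, smul_zero, add_zero, smul_eq_mul]
  unfold dif val Finsupp.sum
  rw [map_add, map_sum, map_sum]
  congr 1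
  · refine Finset.sum_congr rfl fun p _ => ?_
    show e.1 p * (dd jj p * vD D p) = D (e.1 p * jj p)
    rw [h1 _ _ (he p).1, vD_mul]
  · refine Finset.sum_congr rfl fun p _ => ?_
    show e.2 p * D (p : ℂ) = D (e.2 p * (p : ℂ))
    rw [h1 _ _ (he p).2]

theorem dif_congr (e : Eqn) {u v u' v' : ℍ → ℂ}
    (h : ∀ p, (e.1 p ≠ 0 ∨ e.2 p ≠ 0) → u p = u' p ∧ v p = v' p) : dif e u v = dif e u' v' := by
  unfold dif Finsupp.sum
  congr 1
  · refine Finset.sum_congr rfl fun p hp => ?_
    show e.1 p * (dd jj p * v p) = e.1 p * (dd jj p * v' p)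
    rw [(h p (Or.inl (Finsupp.mem_support_iff.1 hp))).2]
  · refine Finset.sum_congr rfl fun p hp => ?_
    show e.2 p * u p = e.2 p * u' p
    rw [(h p (Or.inr (Finsupp.mem_support_iff.1 hp))).1]

theorem forward {d : ℕ} (h : MSC d) : NoExcess d Lin := by
  classical
  intro n z e he hsupp
  -- representatives
  have h₀ : Reps (∅ : Finset ℍ) := ⟨fun r hr => absurd hr (Finset.notMem_empty r),
    fun r hr => absurd hr (Finset.notMem_empty r)⟩
  obtain ⟨R, hR, -, hRG, hRp⟩ := exists_reps' h₀ (Set.finite_range z)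
  have hzP : ∀ i, z i ∈ Pts (R : Set ℍ) := fun i => hRp (z i) ⟨i, rfl⟩
  have hsub : Pts (Set.range z) ⊆ Pts (R : Set ℍ) := by
    rintro p (hp | ⟨r, ⟨i, rfl⟩, hp⟩)
    · exact Or.inl hp
    · exact Pts.orb (hzP i) hp
  have hRn : R.card ≤ n := by
    have h1 : ∀ r : R, ∃ i, z i = (r : ℍ) := by
      intro r
      rcases hRG r r.2 with h2 | ⟨i, hi⟩
      · exact absurd h2 (Finset.notMem_empty _)
      · exact ⟨i, hi⟩
    choose f hf using h1
    have hinj : Function.Injective f := by
      intro r s hrs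
      exact Subtype.ext (by rw [← hf r, ← hf s, hrs])
    have h3 := Fintype.card_le_of_injective f hinj
    rwa [Fintype.card_coe, Fintype.card_fin] at h3
  -- independent numbers and derivations
  obtain ⟨w, hw1, hw2⟩ := h R.card (fun i => ((R.equivFin.symm i : R) : ℍ))
    (fun i => hR.cm _ (R.equivFin.symm i).2) (fun i k hik hor => hik (by
      have h1 := hR.orb _ (R.equivFin.symm i).2 _ (R.equivFin.symm k).2 hor
      exact R.equivFin.symm.injective (Subtype.ext h1)))
  have hD : ∀ l : Fin (R.card - d), ∃ D : Derivation ℚ ℂ ℂ, ∀ k, D (w k) = if k = l then 1 else 0 :=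
    fun l => H135R2.VS.exists_der hw2 fun k => if k = l then 1 else 0
  choose D hD using hD
  obtain ⟨T, hT⟩ : ∃ T : Fin (R.card - d) → (R ⊕ R → ℂ), T = fun l =>
    Sum.elim (fun r : R => uD (D l) r) (fun r : R => vD (D l) r) := ⟨_, rfl⟩
  have hTli : LinearIndependent ℂ T := by
    rw [Fintype.linearIndependent_iff]
    intro c hc k
    rcases hw1 k with ⟨i, hi⟩ | ⟨i, hi⟩
    · have h1 := congrFun hc (Sum.inl (R.equivFin.symm i))
      rw [Finset.sum_apply] at h1
      simp only [hT, Pi.smul_apply, Sum.elim_inl, smul_eq_mul, Pi.zero_apply, uD] at h1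
      have h2 : ∀ l, D l ((((R.equivFin.symm i : R) : ℍ)) : ℂ) = if k = l then 1 else 0 := by
        intro l
        rw [← hD l k, ← hi]
      simp only [h2] at h1
      rw [Finset.sum_eq_single k] at h1
      · rw [if_pos rfl, mul_one] at h1
        exact h1
      · intro l _ hl
        rw [if_neg (Ne.symm hl), mul_zero]
      · intro h3
        exact absurd (Finset.mem_univ k) h3
    · have h1 := congrFun hc (Sum.inr (R.equivFin.symm i))
      rw [Finset.sum_apply] at h1
      simp only [hT, Pi.smul_apply, Sum.elim_inr, smul_eq_mul, Pi.zero_apply] at h1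
      have h2 : ∀ l, dd jj ((R.equivFin.symm i : R) : ℍ) * (c l *
          vD (D l) ((R.equivFin.symm i : R) : ℍ)) = c l * if k = l then 1 else 0 := by
        intro l
        rw [mul_left_comm, vD_mul, ← hD l k, ← hi]
      have h3 := congrArg (fun x => dd jj ((R.equivFin.symm i : R) : ℍ) * x) h1
      rw [mul_zero, Finset.mul_sum] at h3
      simp only [h2] at h3
      rw [Finset.sum_eq_single k] at h3
      · rw [if_pos rfl, mul_one] at h3
        exact h3
      · intro l _ hl
        rw [if_neg (Ne.symm hl), mul_zero]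
      · intro h4
        exact absurd (Finset.mem_univ k) h4
  -- the differentials vanish at these vectors
  have hres : ∀ (k : Fin (n + d + 1)) (u v : ℍ → ℂ), Eqv u → Eqv v →
      dif (e k) (ext R fun r => u r) (ext R fun r => v r) = dif (e k) u v := by
    intro k u v hu hv
    refine dif_congr _ fun p hp => ?_
    have h1 := hsub (hsupp k p hp)
    exact ⟨ext_restrict hR hu h1, ext_restrict hR hv h1⟩
  have hkill : ∀ k l, LL R (e k) (T l) = 0 := by
    intro k l
    rw [LL_apply, hT]
    simp only [Sum.elim_inl, Sum.elim_inr]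
    rw [hres k _ _ (uD_eqv (D l)) (vD_eqv (D l)), dif_der _ _ (he k).1]
    exact der_alg _ (he k).2.isIntegral
  have hdim : finrank ℂ (R ⊕ R → ℂ) = R.card + R.card := by
    rw [finrank_fintype_fun_eq_card, Fintype.card_sum, Fintype.card_coe]
  have hTr : finrank ℂ (Submodule.span ℂ (Set.range T)) = R.card - d := by
    rw [finrank_span_eq_card hTli, Fintype.card_fin]
  have hann := Subspace.finrank_add_finrank_dualAnnihilator_eq (Submodule.span ℂ (Set.range T))
  have hnot : ¬ LinearIndependent ℂ fun k => LL R (e k) := by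
    intro hli
    have h1 := finrank_span_eq_card hli
    rw [Fintype.card_fin] at h1
    have h2 : Submodule.span ℂ (Set.range fun k => LL R (e k)) ≤
        (Submodule.span ℂ (Set.range T)).dualAnnihilator := by
      rw [Submodule.span_le]
      rintro _ ⟨k, rfl⟩
      rw [SetLike.mem_coe, Submodule.mem_dualAnnihilator]
      intro t ht
      induction ht using Submodule.span_induction with
      | mem x hx =>
        obtain ⟨l, rfl⟩ := hx
        exact hkill k l
      | zero => exact map_zero _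
      | add x y _ _ hx hy => rw [map_add, hx, hy, add_zero]
      | smul a x _ hx => rw [map_smul, hx, smul_zero]
    have h3 := Submodule.finrank_mono h2
    omega
  obtain ⟨c, hc, i, hci⟩ := Fintype.not_linearIndependent_iff.1 hnot
  refine ⟨c, fun h1 => hci (by rw [h1]; rfl), fun u v hu hv => ?_⟩
  have h1 := LinearMap.congr_fun hc (Sum.elim (fun r : R => u r) fun r : R => v r)
  rw [LinearMap.sum_apply, LinearMap.zero_apply] at h1
  rw [← h1]
  refine Finset.sum_congr rfl fun k _ => ?_
  rw [LinearMap.smul_apply, LL_apply, smul_eq_mul]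
  simp only [Sum.elim_inl, Sum.elim_inr]
  rw [hres k u v hu hv]

theorem NoExcess.mono {d : ℕ} {S S' : Set Eqn} (h : NoExcess d S') (hS : S ⊆ S') : NoExcess d S :=
  fun n z e he => h n z e fun k => hS (he k)

theorem msc_iff_lin (d : ℕ) : MSC d ↔ NoExcess d Lin :=
  ⟨forward, fun h => back (h.mono Sng_subset)⟩

theorem msc_iff_sng (d : ℕ) : MSC d ↔ NoExcess d Sng :=
  ⟨fun h => (forward h).mono Sng_subset, back⟩

/-! ### the fields killed by all equations -/

/-- the pairs of fields killed by all equations `j a + j b = c` are the derivations -/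
theorem rigid (u v : ℍ → ℂ) : (Eqv u ∧ Eqv v ∧ ∀ e ∈ Sng, dif e u v = 0) ↔
    ∃ D : Derivation ℚ ℂ ℂ, u = uD D ∧ v = vD D := by
  constructor
  · rintro ⟨hu, hv, h⟩
    obtain ⟨𝒞, M, hh, hM, hrel, hY, hd⟩ := exists_cor
    have hgC : ∀ a ∈ Pts Set.univ, ∀ b ∈ Pts Set.univ, ∀ c ∈ Pts Set.univ,
        jj a + jj b = (c : ℂ) → dd jj a * v a + dd jj b * v b = u c := by
      intro a _ b _ c _ habc
      have h1 := h (gC a b c) ⟨a, b, c, habc, rfl⟩
      rw [dif_gC] at h1
      exact sub_eq_zero.1 h1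
    have hadm := adm_of hM hrel hY hd hu hv hgC
    have hall : ∀ p : ℍ, p ∈ Pts Set.univ := fun p => Or.inr ⟨p, Set.mem_univ p, Orb.refl p⟩
    have hE : ∀ (A : Set ℂ) (φ : Sys → Prop), E 𝒞 A φ → φ ⟨{x | pt x ∈ Pts Set.univ},
        Pts Set.univ, dl v, u⟩ := by
      rintro A φ ⟨F, -, P, -, h1⟩
      exact (h1 _ hadm (fun x _ => hall _) (fun x _ => hall _) (fun x _ => hall _)).1
    have hadd : ∀ x y, dl v (x + y) = dl v x + dl v y := fun x y =>
      (hE {x, y} _ ((W.mem (𝒞 := 𝒞) (x := x) (by simp)).add (W.mem (x := y) (by simp)))).2.1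
    have hmul : ∀ x y, dl v (x * y) = x * dl v y + y * dl v x := fun x y =>
      (hE {x, y} _ ((W.mem (𝒞 := 𝒞) (x := x) (by simp)).mul (W.mem (x := y) (by simp)))).2.1
    have hpt : ∀ p, u p = dl v (p : ℂ) := by
      intro p
      have h1 := hgC (pt (p : ℂ)) (hall _) rho (hall _) p (hall _)
        (by rw [jj_pt, jj_rho.1, add_zero])
      rw [hv.cm jj_rho.2, mul_zero, add_zero] at h1
      exact h1.symm
    have hval : ∀ p, v p = dl v (jj p) / dd jj p := by
      intro p
      rw [dl_eq hv rfl]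
      by_cases hp : IsCM p
      · rw [hv.cm hp]
        simp
      · exact (mul_div_cancel_left₀ _ (dd_ne hp)).symm
    let f : ℂ →+ ℂ := AddMonoidHom.mk' (dl v) hadd
    refine ⟨Derivation.mk' f.toRatLinearMap fun x y => ?_, funext hpt, funext hval⟩
    show dl v (x * y) = x • dl v y + y • dl v x
    rw [hmul, smul_eq_mul, smul_eq_mul]
  · rintro ⟨D, rfl, rfl⟩
    refine ⟨uD_eqv D, vD_eqv D, fun e he => ?_⟩
    rw [dif_der _ _ (Sng_subset he).1]
    exact der_alg _ (Sng_subset he).2.isIntegral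

end Pool.Agent.L5helper37.MS
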