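import Pool.Agent.L5helper37.MS.H

/-!
# Equations, their differentials, and extensions of fields
-/

set_option autoImplicit false
set_option linter.unusedVariables false

namespace Pool.Agent.L5helper37.MS

open UpperHalfPlane H294ZP ModularForm Polynomial
open Pool.Agent.N135.ZO (M2 den dd hTA det_eq den_ne exists_rel den_mul hasDerivAt_dd dd_jj_ne
  rel_one den_one rel_adj det_adj E4_cube E6_sq)

/-- isogenous points -/
def Orb (p q : ℍ) : Prop := ∃ M : M2, 0 < M.det ∧ N135.ZO.Rel M p q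

theorem Orb.refl (p : ℍ) : Orb p p := ⟨1, by simp, rel_one p⟩

theorem Orb.symm {p q : ℍ} (h : Orb p q) : Orb q p := by
  obtain ⟨M, hM, hr⟩ := h
  exact ⟨M.adjugate, by rw [det_adj]; exact hM, rel_adj hr⟩

theorem Orb.trans {p q r : ℍ} (h : Orb p q) (h' : Orb q r) : Orb p r := by
  obtain ⟨M, hM, hr⟩ := h
  obtain ⟨N, hN, hs⟩ := h'
  exact ⟨N * M, by rw [Matrix.det_mul]; exact mul_pos hN hM, hr.mul hs⟩

theorem Orb.cm {p q : ℍ} (h : Orb p q) (hp : IsCM p) : IsCM q := by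
  obtain ⟨M, hM, hr⟩ := h
  exact L5helper23.MX.isCM_of_rel hM hr hp

theorem Orb.of_jj {p q : ℍ} (h : jj p = jj q) : Orb p q := by
  obtain ⟨M, hM, hr⟩ := jinj p q h
  exact ⟨M, by rw [hM]; exact one_pos, hr⟩

/-- the CM points and the points isogenous to points of `R` -/
def Pts (R : Set ℍ) : Set ℍ := {p | IsCM p ∨ ∃ r ∈ R, Orb r p}

theorem Pts.orb {R : Set ℍ} {p q : ℍ} (hp : p ∈ Pts R) (h : Orb p q) : q ∈ Pts R := by
  rcases hp with hp | ⟨r, hr, hp⟩
  · exact Or.inl (h.cm hp)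
  · exact Or.inr ⟨r, hr, hp.trans h⟩

theorem Pts.mono {R R' : Set ℍ} (h : R ⊆ R') : Pts R ⊆ Pts R' := by
  rintro p (hp | ⟨r, hr, hp⟩)
  · exact Or.inl hp
  · exact Or.inr ⟨r, h hr, hp⟩

/-- the function on the values -/
noncomputable def dl (v : ℍ → ℂ) (x : ℂ) : ℂ := dd jj (pt x) * v (pt x)

theorem dl_eq {v : ℍ → ℂ} (hv : Eqv v) {p : ℍ} {x : ℂ} (h : jj p = x) :
    dl v x = dd jj p * v p := by
  obtain ⟨M, hM, hr⟩ := jinj (pt x) p ((jj_pt x).trans h.symm)
  unfold dl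
  rw [hv M (by rw [hM]; exact one_pos) _ _ hr, dd_jj_rel hM hr]
  ring

/-- admissible pairs of equivariant fields -/
theorem adm_of {𝒞 : Cor} {M : Fin 𝒞.m → M2} {h : Fin 𝒞.m → ℍ → ℍ} (hM : ∀ k, 0 < (M k).det)
    (hh : ∀ k τ, N135.ZO.Rel (M k) τ (h k τ)) (hY : ∀ k x, 𝒞.Y k x = jj (h k (pt x)))
    (hd : ∀ τ, ∑ k, dd jj (h k τ) * mu (M k) τ = (derivative 𝒞.Q).eval (jj τ) * dd jj τ)
    {R : Set ℍ} {u v : ℍ → ℂ} (hu : Eqv u) (hv : Eqv v)
    (hadd : ∀ a ∈ Pts R, ∀ b ∈ Pts R, ∀ c ∈ Pts R, jj a + jj b = (c : ℂ) →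
      dd jj a * v a + dd jj b * v b = u c) :
    Adm 𝒞 ⟨{x | pt x ∈ Pts R}, Pts R, dl v, u⟩ := by
  have hval : ∀ k x, dl v (𝒞.Y k x) = dd jj (h k (pt x)) * (mu (M k) (pt x) * v (pt x)) := by
    intro k x
    rw [dl_eq hv (hY k x).symm, hv (M k) (hM k) _ _ (hh k (pt x))]
  have hni : ∀ (N : ℕ) (c : ℍ), (c : ℂ) = N * Complex.I → IsCM c := by
    intro N c hc
    refine ⟨1, 0, (N : ℤ) ^ 2, one_ne_zero, ?_⟩
    rw [hc]
    push_cast
    linear_combination (N : ℂ) ^ 2 * Complex.I_sq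
  refine ⟨fun a ha b hb c hc hab => ?_, fun N c hc => Or.inl (hni N c hc),
    fun N c hc => hu.cm (hni N c hc), ?_, ?_, ?_, ?_, fun x hx k => ?_, fun x hx h0 k => ?_,
    fun x hx => ?_⟩
  · exact hadd (pt a) ha (pt b) hb c hc (by rw [jj_pt, jj_pt]; exact hab)
  · exact Or.inl (isCM_of_jj (jj_rho.1.trans (jj_pt 0).symm) jj_rho.2)
  · show dl v 0 = 0
    rw [dl_eq hv jj_rho.1, hv.cm jj_rho.2, mul_zero]
  · exact Or.inl (isCM_of_jj (jj_I.1.trans (jj_pt 1728).symm) jj_I.2)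
  · show dl v 1728 = 0
    rw [dl_eq hv jj_I.1, hv.cm jj_I.2, mul_zero]
  · have h1 : jj (h k (pt x)) = jj (pt (𝒞.Y k x)) := by rw [jj_pt, hY]
    exact Pts.orb hx (Orb.trans ⟨M k, hM k, hh k (pt x)⟩ (Orb.of_jj h1))
  · show dl v (𝒞.Y k x) = 0
    rw [hval]
    by_cases hcm : IsCM (pt x)
    · rw [hv.cm hcm, mul_zero, mul_zero]
    · have h1 := dd_ne hcm
      have h0' : dd jj (pt x) * v (pt x) = 0 := h0
      rcases mul_eq_zero.1 h0' with h2 | h2
      · exact absurd h2 h1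
      · rw [h2, mul_zero, mul_zero]
  · have h1 := hd (pt x)
    rw [jj_pt] at h1
    show ∑ k, dl v (𝒞.Y k x) = (derivative 𝒞.Q).eval x * dl v x
    simp only [hval]
    have e : ∑ k, dd jj (h k (pt x)) * (mu (M k) (pt x) * v (pt x)) =
        (∑ k, dd jj (h k (pt x)) * mu (M k) (pt x)) * v (pt x) := by
      rw [Finset.sum_mul]
      exact Finset.sum_congr rfl fun k _ => by ring
    rw [e, h1]
    unfold dl
    ring

/-! ### extension of fields -/

open Classical in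
/-- the coefficient of the transport from `r` to `p` -/
noncomputable def cf (r p : ℍ) : ℂ :=
  if h : ∃ M : M2, 0 < M.det ∧ N135.ZO.Rel M r p then mu h.choose r else 0

theorem cf_of_rel {r p : ℍ} (hr : ¬ IsCM r) {M : M2} (hM : 0 < M.det) (h : N135.ZO.Rel M r p) :
    cf r p = mu M r := by
  have hex : ∃ M : M2, 0 < M.det ∧ N135.ZO.Rel M r p := ⟨M, hM, h⟩
  unfold cf
  rw [dif_pos hex]
  exact mu_unique hex.choose_spec.1 hM hex.choose_spec.2 h hr

theorem cf_of_not {r p : ℍ} (h : ¬ Orb r p) : cf r p = 0 := by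
  have h' : ¬ ∃ M : M2, 0 < M.det ∧ N135.ZO.Rel M r p := h
  unfold cf
  rw [dif_neg h']

theorem cf_eqv {r : ℍ} (hr : ¬ IsCM r) : Eqv (cf r) := by
  intro N hN p q hpq
  by_cases h : Orb r p
  · obtain ⟨M, hM, hrp⟩ := h
    rw [cf_of_rel hr hM hrp, cf_of_rel hr (M := N * M) (by
      rw [Matrix.det_mul]; exact mul_pos hN hM) (hrp.mul hpq), mu_mul hrp]
  · rw [cf_of_not h, mul_zero]
    refine cf_of_not fun h1 => h (h1.trans (Orb.symm ⟨N, hN, hpq⟩))

theorem cf_self {r : ℍ} (hr : ¬ IsCM r) : cf r r = 1 := by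
  rw [cf_of_rel hr (M := 1) (by simp) (rel_one r), mu_one]

/-- a set of representatives -/
structure Reps (R : Finset ℍ) : Prop where
  cm : ∀ r ∈ R, ¬ IsCM r
  orb : ∀ r ∈ R, ∀ s ∈ R, Orb r s → r = s

/-- the extension of a function on the representatives -/
noncomputable def ext (R : Finset ℍ) (w : R → ℂ) (p : ℍ) : ℂ := ∑ r : R, cf r p * w r

theorem ext_eqv {R : Finset ℍ} (hR : Reps R) (w : R → ℂ) : Eqv (ext R w) := by
  intro N hN p q hpq
  unfold ext
  rw [Finset.mul_sum]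
  refine Finset.sum_congr rfl fun r _ => ?_
  rw [cf_eqv (hR.cm r r.2) N hN p q hpq]
  ring

theorem ext_self {R : Finset ℍ} (hR : Reps R) (w : R → ℂ) (r : R) : ext R w r = w r := by
  unfold ext
  rw [Finset.sum_eq_single r]
  · rw [cf_self (hR.cm r r.2), one_mul]
  · intro s _ hs
    rw [cf_of_not, zero_mul]
    intro h
    exact hs (Subtype.ext (hR.orb s s.2 r r.2 h))
  · intro h
    exact absurd (Finset.mem_univ r) h

/-- an equivariant field is determined by its values at the representatives -/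
theorem ext_restrict {R : Finset ℍ} (hR : Reps R) {u : ℍ → ℂ} (hu : Eqv u) {p : ℍ}
    (hp : p ∈ Pts (R : Set ℍ)) : ext R (fun r => u r) p = u p := by
  by_cases hcm : IsCM p
  · rw [hu.cm hcm, (ext_eqv hR _).cm hcm]
  · rcases hp with hp | ⟨r, hr, M, hM, hrp⟩
    · exact absurd hp hcm
    · rw [ext_eqv hR _ M hM r p hrp, hu M hM r p hrp]
      have h1 := ext_self hR (fun r => u r) ⟨r, hr⟩
      simp only at h1
      rw [h1]

/-- representatives for finitely many points -/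
theorem exists_reps' {R₀ : Finset ℍ} (h₀ : Reps R₀) {G : Set ℍ} (hG : G.Finite) :
    ∃ R : Finset ℍ, Reps R ∧ R₀ ⊆ R ∧ (∀ r ∈ R, r ∈ R₀ ∨ r ∈ G) ∧
      ∀ x ∈ G, x ∈ Pts (R : Set ℍ) := by
  classical
  induction G, hG using Set.Finite.induction_on with
  | empty => exact ⟨R₀, h₀, subset_rfl, fun r hr => Or.inl hr, fun x hx => hx.elim⟩
  | @insert a s ha hs ih =>
    obtain ⟨R, h1, h2, h3, h4⟩ := ih
    by_cases hp : a ∈ Pts (R : Set ℍ)
    · refine ⟨R, h1, h2, fun r hr => (h3 r hr).imp_right fun h => Set.mem_insert_of_mem a h, ?_⟩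
      rintro x (rfl | hx)
      · exact hp
      · exact h4 x hx
    · refine ⟨insert a R, ⟨?_, ?_⟩, h2.trans (Finset.subset_insert _ _), ?_, ?_⟩
      · intro r hr
        rcases Finset.mem_insert.1 hr with rfl | hr
        · exact fun h => hp (Or.inl h)
        · exact h1.cm r hr
      · intro r hr t ht hrt
        rcases Finset.mem_insert.1 hr with hr' | hr' <;>
          rcases Finset.mem_insert.1 ht with ht' | ht'
        · rw [hr', ht']
        · exact absurd (Or.inr ⟨t, ht', by rw [← hr']; exact hrt.symm⟩) hp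
        · exact absurd (Or.inr ⟨r, hr', by rw [← ht']; exact hrt⟩) hp
        · exact h1.orb r hr' t ht' hrt
      · intro r hr
        rcases Finset.mem_insert.1 hr with rfl | hr
        · exact Or.inr (Set.mem_insert r s)
        · exact (h3 r hr).imp_right fun h => Set.mem_insert_of_mem a h
      · have hsub : (R : Set ℍ) ⊆ ((insert a R : Finset ℍ) : Set ℍ) :=
          Finset.coe_subset.2 (Finset.subset_insert _ _)
        rintro x (rfl | hx)
        · exact Or.inr ⟨x, Finset.mem_insert_self _ _, Orb.refl _⟩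
        · exact Pts.mono hsub (h4 x hx)

/-! ### equations -/

/-- the equation `∑ e.1 p * j p + ∑ e.2 p * p = constant` -/
abbrev Eqn : Type := (ℍ →₀ ℂ) × (ℍ →₀ ℂ)

/-- the left-hand side -/
noncomputable def val (e : Eqn) : ℂ :=
  e.1.sum (fun p c => c * jj p) + e.2.sum fun p c => c * (p : ℂ)

/-- the differential -/
noncomputable def dif (e : Eqn) (u v : ℍ → ℂ) : ℂ :=
  e.1.sum (fun p c => c * (dd jj p * v p)) + e.2.sum fun p c => c * u p

/-- `j a + j b = c` -/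
noncomputable def gC (a b c : ℍ) : Eqn :=
  (Finsupp.single a 1 + Finsupp.single b 1, -Finsupp.single c 1)

theorem sum_lin (f : ℍ → ℂ) : ∃ L : (ℍ →₀ ℂ) →+ ℂ, ∀ l, L l = l.sum fun p c => c * f p := by
  have hadd : ∀ l l' : ℍ →₀ ℂ, (l + l').sum (fun p c => c * f p) =
      l.sum (fun p c => c * f p) + l'.sum fun p c => c * f p := by
    intro l l'
    refine Finsupp.sum_add_index' (fun p => ?_) fun p a b => ?_
    · rw [zero_mul]
    · rw [add_mul]
  exact ⟨⟨⟨fun l => l.sum fun p c => c * f p, Finsupp.sum_zero_index⟩, hadd⟩, fun _ => rfl⟩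

theorem sum_single (f : ℍ → ℂ) (p : ℍ) (c : ℂ) :
    (Finsupp.single p c).sum (fun p c => c * f p) = c * f p :=
  Finsupp.sum_single_index (by simp)

theorem dif_gC (a b c : ℍ) (u v : ℍ → ℂ) :
    dif (gC a b c) u v = dd jj a * v a + dd jj b * v b - u c := by
  obtain ⟨L, hL⟩ := sum_lin fun p => dd jj p * v p
  obtain ⟨L', hL'⟩ := sum_lin u
  unfold dif gC
  simp only
  rw [← hL, ← hL', map_add, map_neg, hL, hL, hL', sum_single, sum_single, sum_single]
  ring

theorem val_gC (a b c : ℍ) : val (gC a b c) = jj a + jj b - c := by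
  obtain ⟨L, hL⟩ := sum_lin jj
  obtain ⟨L', hL'⟩ := sum_lin fun p => (p : ℂ)
  unfold val gC
  simp only
  rw [← hL, ← hL', map_add, map_neg, hL, hL, hL', sum_single, sum_single, sum_single]
  ring

theorem supp_gC {a b c : ℍ} {P : ℍ → Prop} (ha : P a) (hb : P b) (hc : P c) :
    ∀ p, ((gC a b c).1 p ≠ 0 ∨ (gC a b c).2 p ≠ 0) → P p := by
  classical
  intro p hp
  unfold gC at hp
  simp only [ne_eq, Finsupp.coe_neg, Pi.neg_apply, Finsupp.coe_add, Pi.add_apply,
    Finsupp.single_apply] at hp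
  by_cases h1 : a = p
  · exact h1 ▸ ha
  by_cases h2 : b = p
  · exact h2 ▸ hb
  by_cases h3 : c = p
  · exact h3 ▸ hc
  simp [h1, h2, h3] at hp

/-- among the equations from `S` between numbers from `n` isogeny classes any `n + d + 1` are dependent -/
def NoExcess (d : ℕ) (S : Set Eqn) : Prop :=
  ∀ (n : ℕ) (z : Fin n → ℍ) (e : Fin (n + d + 1) → Eqn), (∀ k, e k ∈ S) →
    (∀ k p, ((e k).1 p ≠ 0 ∨ (e k).2 p ≠ 0) → p ∈ Pts (Set.range z)) →
    ∃ c : Fin (n + d + 1) → ℂ, c ≠ 0 ∧ ∀ u v, Eqv u → Eqv v → ∑ k, c k * dif (e k) u v = 0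

/-- the true linear equations with algebraic coefficients -/
def Lin : Set Eqn :=
  {e | (∀ p, IsAlgebraic ℚ (e.1 p) ∧ IsAlgebraic ℚ (e.2 p)) ∧ IsAlgebraic ℚ (val e)}

/-- the true equations `j a + j b = c` -/
def Sng : Set Eqn := {e | ∃ a b c : ℍ, jj a + jj b = (c : ℂ) ∧ e = gC a b c}

theorem isAlg_gC (a b c p : ℍ) :
    IsAlgebraic ℚ ((gC a b c).1 p) ∧ IsAlgebraic ℚ ((gC a b c).2 p) := by
  classical
  have h1 : ∀ q : ℍ, IsAlgebraic ℚ ((Finsupp.single q (1 : ℂ) : ℍ →₀ ℂ) p) := by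
    intro q
    rw [Finsupp.single_apply]
    split_ifs
    · exact isAlgebraic_one
    · exact isAlgebraic_zero
  exact ⟨(h1 a).add (h1 b), (h1 c).neg⟩

theorem Sng_subset : Sng ⊆ Lin := by
  rintro e ⟨a, b, c, h, rfl⟩
  refine ⟨fun p => isAlg_gC a b c p, ?_⟩
  rw [val_gC, h, sub_self]
  exact isAlgebraic_zero

end Pool.Agent.L5helper37.MS
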