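import Pool.Agent.L5helper37.MS.J
import Pool.Agent.L5helper37.MS.Cal

/-!
# Equivariant fields and the Hecke correspondence of degree two
-/

set_option autoImplicit false
set_option linter.unusedVariables false

namespace Pool.Agent.L5helper37.MS

open UpperHalfPlane H294ZP ModularForm Polynomial
open scoped MatrixGroups
open Pool.Agent.Y226 (ZZ ιZ ιZ_apply PsiE map_PsiE mP mD modular_spec)
open Pool.Agent.N135.ZO (M2 den dd hTA det_eq den_ne exists_rel den_mul hasDerivAt_dd dd_jj_ne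
  rel_one den_one rel_adj det_adj E4_cube E6_sq)

/-- the functions which transform as vector fields -/
def Eqv (u : ℍ → ℂ) : Prop :=
  ∀ M : M2, 0 < M.det → ∀ p q, N135.ZO.Rel M p q → u q = mu M p * u p

theorem Eqv.cm {u : ℍ → ℂ} (hu : Eqv u) {τ : ℍ} (hτ : IsCM τ) : u τ = 0 := by
  obtain ⟨a, b, c, ha, h⟩ := hτ
  obtain ⟨t, ht⟩ : ∃ t : ℤ, t = |b| + |a * c| + 1 := ⟨_, rfl⟩
  have hb : -b ≤ |b| := neg_le_abs b
  have hac : -(a * c) ≤ |a * c| := neg_le_abs _
  have hb0 : 0 ≤ |b| := abs_nonneg b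
  have hac0 : 0 ≤ |a * c| := abs_nonneg _
  have hdet : 0 < (!![t, -c; a, t + b] : M2).det := by
    rw [Matrix.det_fin_two_of]
    have h1 : 1 ≤ t + b := by linarith
    have h2 : 0 ≤ t := by linarith
    have h3 : t ≤ t * (t + b) := le_mul_of_one_le_right h2 h1
    have h4 : (-c) * a = -(a * c) := by ring
    rw [h4]
    linarith
  have hrel : N135.ZO.Rel !![t, -c; a, t + b] τ τ := by
    simp only [N135.ZO.Rel, den, N135.ZO.num, Matrix.of_apply, Matrix.cons_val',
      Matrix.cons_val_zero, Matrix.cons_val_one, Matrix.cons_val_fin_one]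
    push_cast
    linear_combination h
  have h1 := hu _ hdet τ τ hrel
  by_contra hne
  have h2 : mu !![t, -c; a, t + b] τ = 1 := by
    have h3 : (mu !![t, -c; a, t + b] τ - 1) * u τ = 0 := by linear_combination -h1
    rcases mul_eq_zero.1 h3 with h4 | h4
    · exact sub_eq_zero.1 h4
    · exact absurd h4 hne
  unfold mu at h2
  rw [div_eq_one_iff_eq (pow_ne_zero 2 (den_ne hdet τ))] at h2
  have hre := congrArg Complex.re h2
  have him := congrArg Complex.im h2
  generalize (!![t, -c; a, t + b] : M2).det = D at *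
  have e1 : (den !![t, -c; a, t + b] τ).im = a * τ.im := by simp [den]
  rw [pow_two] at hre him
  rw [Complex.mul_re, e1, Complex.intCast_re] at hre
  rw [Complex.mul_im, e1, Complex.intCast_im] at him
  have h5 : (a : ℝ) * τ.im ≠ 0 := mul_ne_zero (by exact_mod_cast ha) τ.im_pos.ne'
  have h6 : (den !![t, -c; a, t + b] τ).re = 0 := by
    have h7 : (den !![t, -c; a, t + b] τ).re * (a * τ.im) = 0 := by linarith
    rcases mul_eq_zero.1 h7 with h8 | h8
    · exact h8
    · exact absurd h8 h5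
  rw [h6] at hre
  have h8 : (0 : ℝ) < D := by exact_mod_cast hdet
  have h9 : 0 < (a * τ.im : ℝ) * (a * τ.im) := mul_self_pos.2 h5
  linarith

/-- the Hecke correspondence -/
theorem exists_hecke : ∃ (m : ℕ) (M : Fin m → M2) (h : Fin m → ℍ → ℍ) (Q : ℂ[X]),
    (∀ k, 0 < (M k).det) ∧ (∀ k τ, N135.ZO.Rel (M k) τ (h k τ)) ∧ Q.natDegree = 2 ∧
      ∀ τ, ∑ k, jj (h k τ) = Q.eval (jj τ) := by
  classical
  obtain ⟨hD1, hdeg⟩ := L5helper34.hecke_two
  obtain ⟨ι, _, α, δ, β, h, h1, h2, h3, h4, h5⟩ := modular_spec 2 (by norm_num)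
  set D := mD 2 with hD
  set P := mP 2 with hP
  set p : ℍ → ℂ[X] := fun τ => ∏ k, (X - C (jj (h k τ))) with hp
  set q : ℍ → ℂ[X] := fun τ => ∑ i ∈ Finset.range (D + 1), C ((P i).eval₂ ιZ (jj τ)) * X ^ i
    with hq
  have hpq : ∀ τ, p τ = q τ := by
    intro τ
    refine Polynomial.funext fun y => ?_
    have e1 : (p τ).eval y = ∏ k, (y - jj (h k τ)) := by
      rw [hp]; simp only [eval_prod, eval_sub, eval_X, eval_C]
    have e2 : (q τ).eval y = PsiE ιZ P D (jj τ) y := by
      rw [hq]; simp only [eval_finsetSum, eval_mul, eval_C, eval_pow, eval_X]; rfl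
    rw [e1, e2, h4]
  have hqc : ∀ τ i, i ≤ D → (q τ).coeff i = (P i).eval₂ ιZ (jj τ) := by
    intro τ i hi
    rw [hq]
    simp only [finsetSum_coeff, coeff_C_mul, coeff_X_pow]
    rw [Finset.sum_eq_single i]
    · simp
    · intro j _ hj; rw [if_neg (Ne.symm hj), mul_zero]
    · intro hi'; exact absurd (Finset.mem_range.2 (by omega)) hi'
  have hcard : Fintype.card ι = D := by
    have e1 : (p I).natDegree = Fintype.card ι := by
      rw [hp]
      simp only
      rw [natDegree_prod_of_monic _ _ fun k _ => monic_X_sub_C _]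
      simp
    have e2 : (q I).natDegree ≤ D := by
      rw [hq]
      refine natDegree_sum_le_of_forall_le _ _ fun i hi => ?_
      refine (natDegree_C_mul_X_pow_le _ _).trans ?_
      have := Finset.mem_range.1 hi
      omega
    have e3 : D ≤ (q I).natDegree := by
      refine le_natDegree_of_ne_zero ?_
      rw [hqc I D le_rfl, h3, eval₂_one]
      exact one_ne_zero
    rw [← e1, hpq]
    exact le_antisymm e2 e3
  have hsum : ∀ τ, ∑ k, jj (h k τ) = -(P (D - 1)).eval₂ ιZ (jj τ) := by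
    intro τ
    have e1 := Polynomial.prod_X_sub_C_coeff_card_pred (Finset.univ : Finset ι)
      (fun k => jj (h k τ)) (by rw [Finset.card_univ, hcard]; exact hD1)
    rw [Finset.card_univ, hcard] at e1
    have e2 := hqc τ (D - 1) (by omega)
    rw [← hpq τ, hp] at e2
    simp only at e2
    rw [e1] at e2
    rw [← e2, neg_neg]
  let e := Fintype.equivFin ι
  refine ⟨Fintype.card ι, fun k => !![(α (e.symm k) : ℤ), β (e.symm k); 0, (δ (e.symm k) : ℤ)],
    fun k => h (e.symm k), -((P (D - 1)).map ιZ), fun k => ?_, fun k τ => ?_, ?_, fun τ => ?_⟩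
  · rw [Matrix.det_fin_two_of, mul_zero, sub_zero]
    have := h1 (e.symm k)
    have h6 : 0 < α (e.symm k) * δ (e.symm k) := by rw [this.2.2]; norm_num
    exact_mod_cast h6
  · have := h2 (e.symm k) τ
    simp only [N135.ZO.Rel, N135.ZO.den, N135.ZO.num, Matrix.of_apply, Matrix.cons_val',
      Matrix.cons_val_zero, Matrix.cons_val_one, Matrix.cons_val_fin_one]
    push_cast
    rw [← this]
    ring
  · have hinj : Function.Injective ιZ := Subtype.val_injective
    rw [natDegree_neg, natDegree_map_eq_of_injective hinj]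
    exact hdeg
  · rw [Equiv.sum_comp e.symm fun k => jj (h k τ), hsum, eval_neg, eval_map]

/-- the derivative of the sum over the Hecke correspondence -/
theorem dd_hecke {m : ℕ} {M : Fin m → M2} {h : Fin m → ℍ → ℍ} {Q : ℂ[X]}
    (hM : ∀ k, 0 < (M k).det) (hh : ∀ k τ, N135.ZO.Rel (M k) τ (h k τ))
    (hs : ∀ τ, ∑ k, jj (h k τ) = Q.eval (jj τ)) (τ : ℍ) :
    ∑ k, dd jj (h k τ) * mu (M k) τ = (derivative Q).eval (jj τ) * dd jj τ := by
  have h1 : HasDerivAt (fun z => ∑ k, ((fun w => jj (h k w)) ∘ ofComplex) z)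
      (∑ k, dd jj (h k τ) * mu (M k) τ) (τ : ℂ) :=
    HasDerivAt.fun_sum fun k _ => hasDerivAt_rel hTA.2.1 (hM k) (hh k) τ
  have h2 := (Q.hasDerivAt ((jj ∘ ofComplex) (τ : ℂ))).comp (τ : ℂ) (hasDerivAt_dd hTA.2.1 τ)
  have e : (fun z => ∑ k, ((fun w => jj (h k w)) ∘ ofComplex) z) =
      (fun x => Q.eval x) ∘ (jj ∘ ofComplex) := by
    funext z
    simp only [Function.comp]
    exact hs _
  rw [e] at h1
  have h3 := h1.unique h2
  rw [h3]
  simp [Function.comp]

/-- a chosen point with given invariant -/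
noncomputable def pt (x : ℂ) : ℍ := (L5helper23.MX.exists_jj x).choose

theorem jj_pt (x : ℂ) : jj (pt x) = x := (L5helper23.MX.exists_jj x).choose_spec

/-- the correspondence -/
theorem exists_cor : ∃ (𝒞 : Cor) (M : Fin 𝒞.m → M2) (h : Fin 𝒞.m → ℍ → ℍ),
    (∀ k, 0 < (M k).det) ∧ (∀ k τ, N135.ZO.Rel (M k) τ (h k τ)) ∧
    (∀ k x, 𝒞.Y k x = jj (h k (pt x))) ∧
    ∀ τ, ∑ k, dd jj (h k τ) * mu (M k) τ = (derivative 𝒞.Q).eval (jj τ) * dd jj τ := by
  obtain ⟨m, M, h, Q, hM, hh, hQ, hs⟩ := exists_hecke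
  exact ⟨⟨m, fun k x => jj (h k (pt x)), Q, hQ, fun x => by rw [hs, jj_pt]⟩, M, h, hM, hh,
    fun k x => rfl, dd_hecke hM hh hs⟩

end Pool.Agent.L5helper37.MS
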