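import Pool.Agent.N135.ZO.Der
import Pool.Agent.N135.ZO.Val
import Pool.Agent.L5helper23.MX.ModA
import Pool.Agent.L5helper34.FormsScale
import Pool.Agent.L5helper34.ExistsScale
import Pool.Agent.L5helper34.HeckeTwo
import Pool.Agent.L5helper67.Eis

/-!
# The modular function and its derivative on the orbits of the integral matrices of positive determinant
-/

set_option autoImplicit false
set_option linter.unusedVariables false

namespace Pool.Agent.L5helper37.MS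

open UpperHalfPlane H294ZP ModularForm
open scoped MatrixGroups
open Pool.Agent.N135.ZO (M2 den dd hTA det_eq den_ne exists_rel den_mul hasDerivAt_dd dd_jj_ne
  rel_one den_one rel_adj det_adj E4_cube E6_sq)

/-- the modular function separates the orbits of `SL(2, ℤ)` -/
theorem jinj (τ₁ τ₂ : ℍ) (h : jj τ₁ = jj τ₂) : ∃ M : M2, M.det = 1 ∧ N135.ZO.Rel M τ₁ τ₂ := by
  obtain ⟨s, hs, h4, h6⟩ := L5helper34.exists_scale h
  obtain ⟨γ, hγ⟩ := L5helper67.eisenstein_separate hs fun k hk =>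
    L5helper34.forms_scale hs h4 h6 k (ModularForm.E hk)
  refine ⟨γ.1, γ.2, ?_⟩
  subst hγ
  unfold N135.ZO.Rel den N135.ZO.num
  rw [coe_specialLinearGroup_apply]
  have hd : ((γ 1 0 : ℤ) : ℂ) * (τ₁ : ℂ) + ((γ 1 1 : ℤ) : ℂ) ≠ 0 := by
    have := denom_ne_zero γ τ₁
    simpa [denom] using this
  simp only [eq_intCast, Complex.ofReal_intCast]
  exact div_mul_cancel₀ _ hd

/-- the derivative of the map `τ ↦ M τ` -/
noncomputable def mu (M : M2) (τ : ℍ) : ℂ := (M.det : ℂ) / den M τ ^ 2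

theorem mu_ne {M : M2} (hM : 0 < M.det) (τ : ℍ) : mu M τ ≠ 0 :=
  div_ne_zero (by exact_mod_cast hM.ne') (pow_ne_zero _ (den_ne hM τ))

theorem mu_mul {A B : M2} {τ w : ℍ} (h : N135.ZO.Rel B τ w) : mu (A * B) τ = mu A w * mu B τ := by
  unfold mu
  rw [den_mul h, Matrix.det_mul, mul_pow, Int.cast_mul, mul_div_mul_comm]

theorem mu_one (τ : ℍ) : mu 1 τ = 1 := by
  unfold mu
  rw [den_one, Matrix.det_one]
  norm_num

theorem mu_fix {G : M2} {τ : ℍ} (hG : 0 < G.det) (h : N135.ZO.Rel G τ τ) (hτ : ¬ IsCM τ) : mu G τ = 1 := by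
  unfold N135.ZO.Rel den N135.ZO.num at h
  have h0 : G 1 0 = 0 := by
    by_contra h0
    refine hτ ⟨G 1 0, G 1 1 - G 0 0, -G 0 1, h0, ?_⟩
    push_cast
    linear_combination h
  rw [h0] at h
  have him := congrArg Complex.im h
  simp at him
  have hy : τ.im ≠ 0 := τ.im_pos.ne'
  have h1 : G 1 1 = G 0 0 := by
    have h2 : ((G 1 1 : ℤ) : ℝ) = ((G 0 0 : ℤ) : ℝ) := by
      have h3 : τ.im * ((G 1 1 : ℤ) : ℝ) = τ.im * ((G 0 0 : ℤ) : ℝ) := by linarith
      exact mul_left_cancel₀ hy h3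
    exact_mod_cast h2
  have hne := den_ne hG τ
  unfold mu
  rw [det_eq]
  unfold den at hne ⊢
  rw [h0, h1] at hne ⊢
  have h3 : ((G 0 0 : ℤ) : ℂ) ≠ 0 := by simpa using hne
  have e : ((0 : ℤ) : ℂ) * τ + ((G 0 0 : ℤ) : ℂ) = G 0 0 := by push_cast; ring
  rw [e, div_eq_one_iff_eq (pow_ne_zero 2 h3)]
  push_cast
  ring

theorem mu_unique {M M' : M2} (hM : 0 < M.det) (hM' : 0 < M'.det) {τ q : ℍ} (h : N135.ZO.Rel M τ q)
    (h' : N135.ZO.Rel M' τ q) (hτ : ¬ IsCM τ) : mu M τ = mu M' τ := by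
  have hadj : 0 < M'.adjugate.det := by rw [det_adj]; exact hM'
  have h1 := rel_adj h'
  have e1 : mu (M'.adjugate * M) τ = 1 :=
    mu_fix (by rw [Matrix.det_mul]; exact mul_pos hadj hM) (h.mul h1) hτ
  have e2 : mu (M'.adjugate * M') τ = 1 :=
    mu_fix (by rw [Matrix.det_mul]; exact mul_pos hadj hM') (h'.mul h1) hτ
  rw [mu_mul h] at e1
  rw [mu_mul h'] at e2
  exact mul_left_cancel₀ (mu_ne hadj q) (e1.trans e2.symm)

theorem hasDerivAt_mob {M : M2} (hM : 0 < M.det) (τ : ℍ) :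
    HasDerivAt (fun z : ℂ => ((M 0 0 : ℂ) * z + M 0 1) / ((M 1 0 : ℂ) * z + M 1 1)) (mu M τ)
      (τ : ℂ) := by
  have hne : (M 1 0 : ℂ) * τ + M 1 1 ≠ 0 := den_ne hM τ
  have h1 : HasDerivAt (fun z : ℂ => (M 0 0 : ℂ) * z + M 0 1) ((M 0 0 : ℂ) * 1) (τ : ℂ) :=
    ((hasDerivAt_id (τ : ℂ)).const_mul _).add_const _
  have h2 : HasDerivAt (fun z : ℂ => (M 1 0 : ℂ) * z + M 1 1) ((M 1 0 : ℂ) * 1) (τ : ℂ) :=
    ((hasDerivAt_id (τ : ℂ)).const_mul _).add_const _
  refine (h1.div h2 hne).congr_deriv ?_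
  unfold mu den
  rw [det_eq]
  push_cast
  ring

/-- the chain rule -/
theorem hasDerivAt_rel {f : ℍ → ℂ} (hf : Hol f) {M : M2} (hM : 0 < M.det) {h : ℍ → ℍ}
    (hh : ∀ τ, N135.ZO.Rel M τ (h τ)) (τ : ℍ) :
    HasDerivAt ((fun w => f (h w)) ∘ ofComplex) (dd f (h τ) * mu M τ) (τ : ℂ) := by
  have hcoe : ∀ w : ℍ, (h w : ℂ) = ((M 0 0 : ℂ) * w + M 0 1) / ((M 1 0 : ℂ) * w + M 1 1) := by
    intro w
    have hne : (M 1 0 : ℂ) * w + M 1 1 ≠ 0 := den_ne hM w
    rw [eq_div_iff hne]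
    exact hh w
  have h1 := hasDerivAt_dd hf (h τ)
  rw [hcoe] at h1
  have h3 := h1.comp (τ : ℂ) (hasDerivAt_mob hM τ)
  refine h3.congr_of_eventuallyEq ?_
  filter_upwards [isOpen_upperHalfPlaneSet.mem_nhds τ.im_pos] with z hz
  have hz' : 0 < z.im := hz
  simp only [Function.comp]
  have h4 := hcoe (ofComplex z)
  rw [ofComplex_apply_of_im_pos hz'] at h4 ⊢
  have h5 : ((⟨z, hz'⟩ : ℍ) : ℂ) = z := rfl
  rw [h5] at h4
  rw [← h4, ofComplex_apply]

theorem dd_jj_rel {M : M2} (hM : M.det = 1) {τ w : ℍ} (h : N135.ZO.Rel M τ w) :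
    dd jj τ = dd jj w * mu M τ := by
  have hM' : 0 < M.det := by rw [hM]; exact one_pos
  choose f hf using fun τ => exists_rel hM' τ
  have h1 := hasDerivAt_rel hTA.2.1 hM' hf τ
  have e : (fun w => jj (f w)) = jj := funext fun w => (hf w).jj hM
  rw [e] at h1
  rw [(hasDerivAt_dd hTA.2.1 τ).unique h1, (hf τ).unique hM' h]

/-- transformation of the modular forms -/
theorem form_rel {k : ℤ} (f : ModularForm 𝒮ℒ k) {M : M2} (hM : M.det = 1) {τ w : ℍ}
    (h : N135.ZO.Rel M τ w) : f w = den M τ ^ k * f τ := by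
  have hdet : M 0 0 * M 1 1 - M 0 1 * M 1 0 = 1 := by rw [← det_eq, hM]
  let γ : Matrix.SpecialLinearGroup (Fin 2) ℤ := ⟨!![M 0 0, M 0 1; M 1 0, M 1 1], by
    rw [Matrix.det_fin_two_of]; exact hdet⟩
  have hden : UpperHalfPlane.denom γ τ = den M τ := by
    rw [ModularGroup.denom_apply]
    simp [γ, den]
  have hw : w = γ • τ := by
    apply UpperHalfPlane.ext
    rw [coe_specialLinearGroup_apply]
    have hne : den M τ ≠ 0 := den_ne (by rw [hM]; norm_num) τ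
    have h2 : (w : ℂ) = N135.ZO.num M τ / den M τ := by
      rw [eq_div_iff hne]; exact h
    rw [h2]
    simp [γ, N135.ZO.num, den]
  have h12 : f (γ • τ) = (UpperHalfPlane.denom γ τ) ^ k * f τ :=
    SlashInvariantForm.slash_action_eqn' f (MonoidHom.mem_range.mpr ⟨γ, rfl⟩) τ
  rw [hw, h12, hden]

/-- the point `i` -/
theorem jj_I : jj I = 1728 ∧ IsCM I := by
  have hI : ((I : ℍ) : ℂ) = Complex.I := rfl
  have hrel : N135.ZO.Rel !![0, -1; 1, 0] I I := by
    simp [N135.ZO.Rel, den, N135.ZO.num]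
  have h1 := form_rel E₆ (M := !![0, -1; 1, 0]) (by simp [Matrix.det_fin_two]) hrel
  have hden : den !![0, -1; 1, 0] I = Complex.I := by simp [den]
  rw [hden] at h1
  have h2 : (Complex.I : ℂ) ^ (6 : ℤ) = -1 := by
    have : (Complex.I : ℂ) ^ (6 : ℤ) = (Complex.I ^ 2) ^ 3 := by
      rw [← pow_mul]; norm_cast
    rw [this, Complex.I_sq]; norm_num
  have h3 : E₆ I = 0 := by
    have h4 : E₆ I = -1 * E₆ I := by
      conv_lhs => rw [h1]
      congr 1
    linear_combination (1 / 2 : ℂ) * h4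
  constructor
  · have h4 := E6_sq I
    rw [h3] at h4
    have h5 := discriminant_ne_zero I
    have h6 : (jj I - 1728) * discriminant I = 0 := by rw [← h4]; norm_num
    rcases mul_eq_zero.1 h6 with h7 | h7
    · linear_combination h7
    · exact absurd h7 h5
  · refine ⟨1, 0, 1, one_ne_zero, ?_⟩
    rw [hI]
    simp

/-- the point `ρ` -/
noncomputable def rho : ℍ := ⟨⟨-1 / 2, Real.sqrt 3 / 2⟩, by positivity⟩

theorem rho_sq : (rho : ℂ) ^ 2 + rho + 1 = 0 := by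
  have h3 : Real.sqrt 3 * Real.sqrt 3 = 3 := Real.mul_self_sqrt (by norm_num)
  have e : (rho : ℂ) = ⟨-1 / 2, Real.sqrt 3 / 2⟩ := rfl
  rw [e]
  apply Complex.ext
  · simp [pow_two]
    nlinarith
  · simp [pow_two]
    ring

theorem jj_rho : jj rho = 0 ∧ IsCM rho := by
  have hs := rho_sq
  have hrel : N135.ZO.Rel !![0, -1; 1, 1] rho rho := by
    simp only [N135.ZO.Rel, den, N135.ZO.num, Matrix.of_apply, Matrix.cons_val', Matrix.cons_val_zero,
      Matrix.cons_val_one, Matrix.cons_val_fin_one]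
    push_cast
    linear_combination hs
  have h1 := form_rel E₄ (M := !![0, -1; 1, 1]) (by simp [Matrix.det_fin_two]) hrel
  have hden : den !![0, -1; 1, 1] rho = rho + 1 := by simp [den]
  rw [hden] at h1
  have h2 : ((rho : ℂ) + 1) ^ (4 : ℤ) = (rho : ℂ) ^ 2 := by
    have e : ((rho : ℂ) + 1) ^ (4 : ℤ) = ((rho : ℂ) + 1) ^ 4 := by norm_cast
    rw [e]
    linear_combination ((rho : ℂ) ^ 2 + 3 * rho + 1) * hs
  have h3 : E₄ rho = 0 := by
    have h4 : E₄ rho = ((rho : ℂ) + 1) ^ (4 : ℤ) * E₄ rho := h1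
    rw [h2] at h4
    have h5 : (rho : ℂ) ^ 2 - 1 ≠ 0 := by
      intro h6
      have h7 : (rho : ℂ) = -2 := by linear_combination hs - h6
      rw [h7] at h6
      norm_num at h6
    have h6 : ((rho : ℂ) ^ 2 - 1) * E₄ rho = 0 := by linear_combination -h4
    rcases mul_eq_zero.1 h6 with h7 | h7
    · exact absurd h7 h5
    · exact h7
  constructor
  · unfold jj
    rw [h3]
    simp
  · exact ⟨1, 1, 1, one_ne_zero, by push_cast; linear_combination hs⟩

theorem isCM_of_jj {τ w : ℍ} (h : jj τ = jj w) (hτ : IsCM τ) : IsCM w := by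
  obtain ⟨M, hM, hr⟩ := jinj τ w h
  exact L5helper23.MX.isCM_of_rel (by rw [hM]; exact one_pos) hr hτ

theorem dd_ne {τ : ℍ} (hτ : ¬ IsCM τ) : dd jj τ ≠ 0 := by
  refine dd_jj_ne ?_ ?_
  · intro h
    exact hτ (isCM_of_jj (jj_rho.1.trans h.symm) jj_rho.2)
  · intro h
    exact hτ (isCM_of_jj (jj_I.1.trans h.symm) jj_I.2)

end Pool.Agent.L5helper37.MS
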